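import Mathlib

set_option autoImplicit false

open FirstOrder

namespace Pool.Agent.KS6_94.AI

universe u v

/-- The `(n+1)`-ary operations on `Ω`. If `Ω` carries the discrete topology, then this has the
topology of pointwise convergence. -/
abbrev Op (Ω : Type u) (n : ℕ) : Type u := (Fin (n + 1) → Ω) → Ω

/-- The set of all finitary operations of arity at least one, with the sum topology. -/
abbrev AllOps (Ω : Type u) : Type u := Σ n : ℕ, Op Ω n

/-- A clone on `Ω`: a set of finitary operations of arity at least one (given arity by arity) that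
contains all projections and is closed under composition. -/
structure Clone (Ω : Type u) where
  /-- the `(n+1)`-ary members -/
  ops : ∀ n : ℕ, Set (Op Ω n)
  proj_mem : ∀ (n : ℕ) (i : Fin (n + 1)), (fun x => x i) ∈ ops n
  comp_mem : ∀ (n m : ℕ) (f : Op Ω n) (g : Fin (n + 1) → Op Ω m), f ∈ ops n →
    (∀ i, g i ∈ ops m) → (fun x => f (fun i => g i x)) ∈ ops m

/-- The clone as a subset of the space of all operations. -/
def Clone.toSet {Ω : Type u} (C : Clone Ω) : Set (AllOps Ω) := {p | p.2 ∈ C.ops p.1}

/-- The clone is topologically closed, for the discrete topology on its domain. -/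
def Clone.Closed {Ω : Type u} (C : Clone Ω) : Prop :=
  letI : TopologicalSpace Ω := ⊥
  IsClosed C.toSet

/-- A clone isomorphism between clones on possibly different sets: an arity preserving bijection
that respects projections and composition. No continuity is assumed. -/
structure CloneIso {Ω : Type v} {Y : Type u} (C : Clone Ω) (D : Clone Y) where
  /-- the underlying map -/
  map : ∀ n : ℕ, C.ops n → D.ops n
  bij : ∀ n : ℕ, Function.Bijective (map n)
  map_proj : ∀ (n : ℕ) (i : Fin (n + 1)),
    (map n ⟨fun x => x i, C.proj_mem n i⟩ : Op Y n) = fun x => x i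
  map_comp : ∀ (n m : ℕ) (f : C.ops n) (g : Fin (n + 1) → C.ops m),
    (map m ⟨fun x => (f : Op Ω n) (fun i => (g i : Op Ω m) x),
      C.comp_mem n m f (fun i => g i) f.2 (fun i => (g i).2)⟩ : Op Y m) =
    fun x => (map n f : Op Y n) (fun i => (map m (g i) : Op Y m) x)

/-- The isomorphism as a map between the two subspaces of the spaces of all operations. -/
def CloneIso.total {Ω : Type v} {Y : Type u} {C : Clone Ω} {D : Clone Y} (ξ : CloneIso C D) :
    C.toSet → D.toSet :=
  fun p => ⟨⟨p.1.1, (ξ.map p.1.1 ⟨p.1.2, p.2⟩ : Op Y p.1.1)⟩, (ξ.map p.1.1 ⟨p.1.2, p.2⟩).2⟩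

/-- Automatic homeomorphicity of the clone `C` with respect to the closed clones on the set
`Y`: every clone isomorphism from `C` onto a closed clone on `Y` is a homeomorphism (the domains
of the clones are discrete, the operations carry the topology of pointwise convergence). -/
def AutoHomeo {Ω : Type v} (C : Clone Ω) (Y : Type u) : Prop :=
  ∀ D : Clone Y, D.Closed → ∀ ξ : CloneIso C D,
    letI : TopologicalSpace Ω := ⊥
    letI : TopologicalSpace Y := ⊥
    IsHomeomorph ξ.total

/-- The operation `f` preserves the `k`-ary relation `R`. -/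
def Preserves {Ω : Type v} {n k : ℕ} (f : Op Ω n) (R : Set (Fin k → Ω)) : Prop :=
  ∀ r : Fin (n + 1) → (Fin k → Ω), (∀ j, r j ∈ R) → (fun i => f (fun j => r j i)) ∈ R

/-- The polymorphism clone of the relational structure with domain `Ω` whose relations are the
members of `A`. -/
def Pol {Ω : Type v} (A : Set (Σ k : ℕ, Set (Fin k → Ω))) : Clone Ω where
  ops n := {f : Op Ω n | ∀ R ∈ A, Preserves f R.2}
  proj_mem := fun _ i _ _ _ hr => hr i
  comp_mem := fun _ _ _ g hf hg R hR r hr =>
    hf R hR (fun j i => g j (fun l => r l i)) (fun j => hg j R hR r hr)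

/-- `S` is definable by a first-order formula with parameters from `B` in `(ℕ, =)`. -/
def EqDefinable {α : Type} (B : Set ℕ) (S : Set (α → ℕ)) : Prop :=
  @Set.Definable ℕ B Language.empty Language.emptyStructure α S

/-- A first-order interpretation in `(ℕ, =)` of the relational structure with domain `Ω` and
relations `A`: for some `d`, a surjection `h` onto `Ω` from a subset `dom` of `ℕ ^ d`, such that
`dom`, the kernel of `h` and the preimages of all relations of the structure are first-order
definable in `(ℕ, =)` with parameters from a finite set. -/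
structure Interpretation {Ω : Type v} (A : Set (Σ k : ℕ, Set (Fin k → Ω))) where
  /-- the dimension -/
  d : ℕ
  /-- the parameters -/
  B : Set ℕ
  finite_B : B.Finite
  /-- the domain -/
  dom : Set (Fin d → ℕ)
  /-- the coordinate map; its values outside of `dom` do not matter -/
  h : (Fin d → ℕ) → Ω
  surj : ∀ ω, ∃ a ∈ dom, h a = ω
  def_dom : EqDefinable B dom
  def_ker : EqDefinable B {x : Fin 2 × Fin d → ℕ | (∀ i, (fun j => x (i, j)) ∈ dom) ∧
    h (fun j => x (0, j)) = h (fun j => x (1, j))}
  def_rel : ∀ R ∈ A, EqDefinable B {x : Fin R.1 × Fin d → ℕ |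
    (∀ i, (fun j => x (i, j)) ∈ dom) ∧ (fun i => h (fun j => x (i, j))) ∈ R.2}

/-- The group of all permutations of `ℕ` acts on `Ω` with finitely many orbits in such a way that
every point has a finite support. -/
structure Tame (Ω : Type v) [MulAction (Equiv.Perm ℕ) Ω] : Prop where
  finite_orbits : ∃ R : Set Ω, R.Finite ∧ ∀ ω : Ω, ∃ r ∈ R, ∃ σ : Equiv.Perm ℕ, σ • r = ω
  finite_support : ∀ ω : Ω, ∃ S : Finset ℕ, ∀ σ : Equiv.Perm ℕ, (∀ n ∈ S, σ n = n) → σ • ω = ω

end Pool.Agent.KS6_94.AI
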