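import Mathlib
import Pool.Agent.KS6_94.AI.Defs

set_option autoImplicit false
set_option linter.unusedVariables false

open Filter

namespace Pool.Agent.KS6_94.AI

universe u v

/-- codes of points: an orbit and a tuple of indices -/
abbrev Cod (K : Type) (d : ℕ) : Type := K × (Fin d → Option ℕ)

variable {K : Type} {d : ℕ}

/-- the action on codes -/
def cmap (h : ℕ → ℕ) (c : Cod K d) : Cod K d := (c.1, fun x => (c.2 x).map h)

lemma cmap_comp (h h' : ℕ → ℕ) (c : Cod K d) : cmap h (cmap h' c) = cmap (h ∘ h') c := by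
  refine Prod.ext rfl ?_
  funext x
  show ((c.2 x).map h').map h = (c.2 x).map (h ∘ h')
  rw [Option.map_map]

lemma cmap_id (c : Cod K d) : cmap id c = c := by
  refine Prod.ext rfl ?_
  funext x
  show (c.2 x).map id = c.2 x
  rw [Option.map_id]
  rfl

lemma cmap_congr {h h' : ℕ → ℕ} {c : Cod K d} (H : ∀ x n, c.2 x = some n → h n = h' n) :
    cmap h c = cmap h' c := by
  refine Prod.ext rfl ?_
  funext x
  show (c.2 x).map h = (c.2 x).map h'
  rcases hx : c.2 x with _ | n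
  · rfl
  · simp [H x n hx]

lemma cmap_eq_self {h : ℕ → ℕ} {c : Cod K d} (H : ∀ x n, c.2 x = some n → h n = n) :
    cmap h c = c := by
  conv_rhs => rw [← cmap_id c]
  exact cmap_congr H

/-- A set with an action of the injections of `ℕ`, in coded form. -/
structure Dom (Ω : Type v) (K : Type) (d : ℕ) where
  /-- the valid codes -/
  D : Set (Cod K d)
  /-- the point of a code -/
  pt : Cod K d → Ω
  /-- a code of a point -/
  s : Ω → Cod K d
  s_mem : ∀ ω, s ω ∈ D
  pt_s : ∀ ω, pt (s ω) = ω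
  D_act : ∀ c ∈ D, ∀ h : ℕ → ℕ, Function.Injective h → cmap h c ∈ D
  pt_act : ∀ c ∈ D, ∀ c' ∈ D, ∀ h : ℕ → ℕ, Function.Injective h → pt c = pt c' →
    pt (cmap h c) = pt (cmap h c')
  min : ∀ c ∈ D, ∀ x n, ∀ h : ℕ → ℕ, Function.Injective h → c.2 x = some n →
    (∀ x', c.2 x' ≠ some (h n)) → pt (cmap h c) ≠ pt c

namespace Dom

variable {Ω : Type v} (E : Dom Ω K d)

/-- the action of a function on `Ω` -/
def act (h : ℕ → ℕ) (ω : Ω) : Ω := E.pt (cmap h (E.s ω))

lemma act_pt {c : Cod K d} (hc : c ∈ E.D) {h : ℕ → ℕ} (hh : Function.Injective h) :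
    E.act h (E.pt c) = E.pt (cmap h c) :=
  E.pt_act _ (E.s_mem _) _ hc h hh (E.pt_s _)

lemma act_comp {h h' : ℕ → ℕ} (hh : Function.Injective h) (hh' : Function.Injective h') (ω : Ω) :
    E.act (h ∘ h') ω = E.act h (E.act h' ω) := by
  show E.pt (cmap (h ∘ h') (E.s ω)) = E.act h (E.pt (cmap h' (E.s ω)))
  rw [E.act_pt (E.D_act _ (E.s_mem ω) _ hh') hh, cmap_comp]

lemma act_id (ω : Ω) : E.act id ω = ω := by
  rw [act, cmap_id, E.pt_s]

lemma act_congr {h h' : ℕ → ℕ} {ω : Ω} (H : ∀ x n, (E.s ω).2 x = some n → h n = h' n) :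
    E.act h ω = E.act h' ω := by
  rw [act, act, cmap_congr H]

lemma act_perm_symm (σ : Equiv.Perm ℕ) (ω : Ω) : E.act σ.symm (E.act σ ω) = ω := by
  rw [← E.act_comp σ.symm.injective σ.injective]
  have : (σ.symm : ℕ → ℕ) ∘ (σ : ℕ → ℕ) = id := by
    funext z
    simp
  rw [this, E.act_id]

lemma s_injective : Function.Injective E.s := fun a b h => by
  rw [← E.pt_s a, h, E.pt_s]

lemma countable_of [Finite K] (E : Dom Ω K d) : Countable Ω :=
  Function.Injective.countable E.s_injective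

end Dom

/-- every finite partial injection extends to a permutation. -/
lemma perm_ext (T : Finset ℕ) (v : ℕ → ℕ) (hv : Set.InjOn v T) :
    ∃ σ : Equiv.Perm ℕ, ∀ t ∈ T, σ t = v t := by
  classical
  induction T using Finset.induction_on with
  | empty => exact ⟨Equiv.refl _, by simp⟩
  | insert x T hx ih =>
    obtain ⟨σ, hσ⟩ := ih (hv.mono (by simp))
    refine ⟨σ.trans (Equiv.swap (σ x) (v x)), ?_⟩
    intro t ht
    rw [Finset.mem_insert] at ht
    rcases ht with rfl | ht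
    · simp
    · rw [Equiv.trans_apply, hσ t ht]
      apply Equiv.swap_apply_of_ne_of_ne
      · rw [← hσ t ht]
        intro h
        exact hx (σ.injective h ▸ ht)
      · intro h
        have := hv (by simp [ht]) (by simp) h
        exact hx (this ▸ ht)

/-- all indices that occur in a code -/
def idx (c : Cod K d) : Finset ℕ := Finset.univ.biUnion fun x => (c.2 x).toFinset

lemma mem_idx {c : Cod K d} {n : ℕ} : n ∈ idx c ↔ ∃ x, c.2 x = some n := by
  unfold idx
  simp [Option.mem_toFinset]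

lemma Dom.act_injective {Ω : Type v} (E : Dom Ω K d) {h : ℕ → ℕ} (hh : Function.Injective h) :
    Function.Injective (E.act h) := by
  classical
  intro a b hab
  obtain ⟨σ, hσ⟩ := perm_ext (idx (E.s a) ∪ idx (E.s b)) h hh.injOn
  have h1 : E.act h a = E.act σ a := E.act_congr fun x n hx =>
    (hσ n (Finset.mem_union_left _ (mem_idx.2 ⟨x, hx⟩))).symm
  have h2 : E.act h b = E.act σ b := E.act_congr fun x n hx =>
    (hσ n (Finset.mem_union_right _ (mem_idx.2 ⟨x, hx⟩))).symm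
  rw [h1, h2] at hab
  rw [← E.act_perm_symm σ a, hab, E.act_perm_symm]

/-- the facts used about a clone isomorphism onto a closed clone. -/
structure Setup {Ω : Type v} {Y : Type u} (E : Dom Ω K d) (C : Clone Ω) (D : Clone Y)
    (X : ∀ n, Op Ω n → Op Y n) : Prop where
  closedC : ∀ n (f : Op Ω n), (∀ T : Finset (Fin (n + 1) → Ω),
    ∃ g ∈ C.ops n, ∀ t ∈ T, g t = f t) → f ∈ C.ops n
  closedD : ∀ n (f : Op Y n), (∀ T : Finset (Fin (n + 1) → Y),
    ∃ g ∈ D.ops n, ∀ t ∈ T, g t = f t) → f ∈ D.ops n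
  perm : ∀ σ : Equiv.Perm ℕ, (fun x : Fin 1 → Ω => E.act σ (x 0)) ∈ C.ops 0
  small : Cardinal.mk Y < Cardinal.continuum
  mem : ∀ n f, f ∈ C.ops n → X n f ∈ D.ops n
  inj : ∀ n f g, f ∈ C.ops n → g ∈ C.ops n → X n f = X n g → f = g
  surj : ∀ n g, g ∈ D.ops n → ∃ f ∈ C.ops n, X n f = g
  proj : ∀ n i, X n (fun x => x i) = fun x => x i
  comp : ∀ n m f (g : Fin (n + 1) → Op Ω m), f ∈ C.ops n → (∀ i, g i ∈ C.ops m) →
    X m (fun x => f (fun i => g i x)) = fun x => X n f (fun i => X m (g i) x)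

/-- a unary function as a unary operation -/
def un {Ω : Type u} (w : Ω → Ω) : Op Ω 0 := fun x => w (x 0)

/-- a unary operation as a function -/
def dn {Ω : Type u} (p : Op Ω 0) : Ω → Ω := fun a => p (fun _ => a)

lemma un_dn {Ω : Type u} (p : Op Ω 0) : un (dn p) = p := by
  funext x
  show p (fun _ => x 0) = p x
  congr 1
  funext i
  rw [show i = 0 from Subsingleton.elim (α := Fin 1) i 0]

lemma dn_un {Ω : Type u} (w : Ω → Ω) : dn (un w) = w := rfl

/-- the unary part -/
def U {Ω : Type u} (C : Clone Ω) : Set (Ω → Ω) := {w | un w ∈ C.ops 0}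

/-- the action of a unary function through the isomorphism -/
def A {Ω : Type v} {Y : Type u} (X : ∀ n, Op Ω n → Op Y n) (w : Ω → Ω) : Y → Y :=
  dn (X 0 (un w))

lemma X_un {Ω : Type v} {Y : Type u} (X : ∀ n, Op Ω n → Op Y n) (w : Ω → Ω) :
    X 0 (un w) = un (A X w) := (un_dn _).symm

/-- the action of an injection of `ℕ` through the isomorphism -/
def Ac {Ω : Type v} {Y : Type u} (E : Dom Ω K d) (X : ∀ n, Op Ω n → Op Y n) (h : ℕ → ℕ) : Y → Y :=
  A X (E.act h)

namespace Setup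

variable {Ω : Type v} {Y : Type u} {E : Dom Ω K d} {C : Clone Ω} {D : Clone Y}
  {X : ∀ n, Op Ω n → Op Y n}

lemma comp_mem (S : Setup E C D X) {a b : Ω → Ω} (ha : a ∈ U C) (hb : b ∈ U C) :
    a ∘ b ∈ U C :=
  C.comp_mem 0 0 (un a) (fun _ => un b) ha (fun _ => hb)

lemma A_comp (S : Setup E C D X) {a b : Ω → Ω} (ha : a ∈ U C) (hb : b ∈ U C) (y : Y) :
    A X (a ∘ b) y = A X a (A X b y) := by
  have h := S.comp 0 0 (un a) (fun _ => un b) ha (fun _ => hb)
  exact congrFun h (fun _ => y)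

lemma id_mem (S : Setup E C D X) : (id : Ω → Ω) ∈ U C := C.proj_mem 0 0

lemma A_id (S : Setup E C D X) (y : Y) : A X id y = y := by
  have h := S.proj 0 0
  exact congrFun h (fun _ => y)

lemma A_inj (S : Setup E C D X) {a b : Ω → Ω} (ha : a ∈ U C) (hb : b ∈ U C)
    (h : ∀ y, A X a y = A X b y) : a = b := by
  have h1 : X 0 (un a) = X 0 (un b) := by
    rw [X_un X a, X_un X b, funext h]
  have h2 := S.inj 0 _ _ ha hb h1
  have h3 := congrArg dn h2
  rwa [dn_un, dn_un] at h3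

lemma A_surj (S : Setup E C D X) {p : Y → Y} (hp : un p ∈ D.ops 0) : ∃ a ∈ U C, A X a = p := by
  obtain ⟨f, hf, hfp⟩ := S.surj 0 _ hp
  refine ⟨dn f, ?_, ?_⟩
  · show un (dn f) ∈ C.ops 0
    rwa [un_dn]
  · rw [A, un_dn, hfp, dn_un]

lemma A_mem (S : Setup E C D X) {a : Ω → Ω} (ha : a ∈ U C) : un (A X a) ∈ D.ops 0 := by
  rw [← X_un X a]
  exact S.mem 0 _ ha

lemma coord_mem (S : Setup E C D X) {n : ℕ} {a : Ω → Ω} (ha : a ∈ U C)
    (i : Fin (n + 1)) : (fun t : Fin (n + 1) → Ω => a (t i)) ∈ C.ops n :=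
  C.comp_mem 0 n (un a) (fun _ => fun t => t i) ha (fun _ => C.proj_mem n i)

lemma X_coord (S : Setup E C D X) {n : ℕ} {a : Ω → Ω} (ha : a ∈ U C) (i : Fin (n + 1)) :
    X n (fun t : Fin (n + 1) → Ω => a (t i)) = fun y => A X a (y i) := by
  have h := S.comp 0 n (un a) (fun _ => fun t => t i) ha (fun _ => C.proj_mem n i)
  rw [S.proj n i] at h
  exact h

/-- the action of an injection belongs to the clone. -/
lemma act_mem (S : Setup E C D X) {h : ℕ → ℕ} (hh : Function.Injective h) : E.act h ∈ U C := by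
  classical
  refine S.closedC 0 (un (E.act h)) fun T => ?_
  obtain ⟨σ, hσ⟩ := perm_ext (T.biUnion fun x => idx (E.s (x 0))) h hh.injOn
  refine ⟨un (E.act σ), S.perm σ, fun t ht => ?_⟩
  exact E.act_congr fun x n hx =>
    hσ n (Finset.mem_biUnion.2 ⟨t, ht, mem_idx.2 ⟨x, hx⟩⟩)

lemma subst_mem (S : Setup E C D X) {n : ℕ} {f : Op Ω n} (hf : f ∈ C.ops n)
    {h : ℕ → ℕ} (hh : Function.Injective h) :
    (fun t => f (fun i => E.act h (t i))) ∈ C.ops n :=
  C.comp_mem n n f (fun i t => E.act h (t i)) hf (fun i => S.coord_mem (S.act_mem hh) i)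

lemma X_subst (S : Setup E C D X) {n : ℕ} {f : Op Ω n} (hf : f ∈ C.ops n)
    {h : ℕ → ℕ} (hh : Function.Injective h) (y : Fin (n + 1) → Y) :
    X n (fun t => f (fun i => E.act h (t i))) y = X n f (fun i => Ac E X h (y i)) := by
  have h1 := S.comp n n f (fun i t => E.act h (t i)) hf
    (fun i => S.coord_mem (S.act_mem hh) i)
  rw [h1]
  show X n f _ = _
  congr 1
  funext i
  rw [S.X_coord (S.act_mem hh) i]
  rfl

lemma post_mem (S : Setup E C D X) {n : ℕ} {f : Op Ω n} (hf : f ∈ C.ops n)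
    {h : ℕ → ℕ} (hh : Function.Injective h) : (fun t => E.act h (f t)) ∈ C.ops n :=
  C.comp_mem 0 n (un (E.act h)) (fun _ => f) (S.act_mem hh) (fun _ => hf)

lemma X_post (S : Setup E C D X) {n : ℕ} {f : Op Ω n} (hf : f ∈ C.ops n)
    {h : ℕ → ℕ} (hh : Function.Injective h) (y : Fin (n + 1) → Y) :
    X n (fun t => E.act h (f t)) y = Ac E X h (X n f y) := by
  have h1 := S.comp 0 n (un (E.act h)) (fun _ => f) (S.act_mem hh) (fun _ => hf)
  exact congrFun h1 y

lemma Ac_comp (S : Setup E C D X) {h h' : ℕ → ℕ} (hh : Function.Injective h)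
    (hh' : Function.Injective h') (y : Y) : Ac E X (h ∘ h') y = Ac E X h (Ac E X h' y) := by
  show A X (E.act (h ∘ h')) y = A X (E.act h) (A X (E.act h') y)
  rw [← S.A_comp (S.act_mem hh) (S.act_mem hh')]
  congr 1
  have : E.act (h ∘ h') = E.act h ∘ E.act h' := funext fun ω => E.act_comp hh hh' ω
  rw [this]

lemma Ac_id (S : Setup E C D X) (y : Y) : Ac E X id y = y := by
  have : E.act id = id := funext fun ω => E.act_id ω
  show A X (E.act id) y = y
  rw [this, S.A_id]

end Setup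

end Pool.Agent.KS6_94.AI
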