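import Mathlib
import Pool.Agent.KS6_94.AI.Base

set_option autoImplicit false
set_option linter.unusedVariables false

namespace Pool.Agent.KS6_94.AI

universe u v

variable {Ω : Type v} [MulAction (Equiv.Perm ℕ) Ω]

/-- the finite set `S` supports the point `ω` -/
def Supports (S : Finset ℕ) (ω : Ω) : Prop :=
  ∀ σ : Equiv.Perm ℕ, (∀ n ∈ S, σ n = n) → σ • ω = ω

lemma Supports.congr {S : Finset ℕ} {ω : Ω} (h : Supports S ω) {σ τ : Equiv.Perm ℕ}
    (hst : ∀ n ∈ S, σ n = τ n) : σ • ω = τ • ω := by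
  have h1 := h (τ⁻¹ * σ) fun n hn => by
    rw [Equiv.Perm.mul_apply, hst n hn]
    exact τ.symm_apply_apply n
  rw [mul_smul] at h1
  conv_rhs => rw [← h1]
  rw [smul_inv_smul]

/-- a support of minimal size is contained in every support. -/
lemma min_support_sub {A B : Finset ℕ} {ω : Ω} (hA : Supports A ω)
    (hmin : ∀ S : Finset ℕ, Supports S ω → A.card ≤ S.card) (hB : Supports B ω) : A ⊆ B := by
  classical
  intro x hx
  by_contra hxB
  have hcase : ∀ σ : Equiv.Perm ℕ, (∀ n ∈ A.erase x, σ n = n) → σ x ∉ B → σ • ω = ω := by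
    intro σ hσ hz
    have hsw : Equiv.swap x (σ x) • ω = ω := hB _ fun n hn =>
      Equiv.swap_apply_of_ne_of_ne (fun h => hxB (h ▸ hn)) (fun h => hz (h ▸ hn))
    have h1 : (Equiv.swap x (σ x) * σ) • ω = ω := by
      refine hA _ fun n hn => ?_
      rw [Equiv.Perm.mul_apply]
      by_cases hnx : n = x
      · rw [hnx, Equiv.swap_apply_right]
      · rw [hσ n (Finset.mem_erase.2 ⟨hnx, hn⟩)]
        refine Equiv.swap_apply_of_ne_of_ne hnx fun h => hnx ?_
        have h2 := hσ n (Finset.mem_erase.2 ⟨hnx, hn⟩)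
        exact σ.injective (h2.trans h)
    rw [mul_smul] at h1
    have h2 : σ • ω = (Equiv.swap x (σ x))⁻¹ • ω := eq_inv_smul_iff.2 h1
    rw [h2, Equiv.swap_inv, hsw]
  have hsup : Supports (A.erase x) ω := by
    intro σ hσ
    obtain ⟨x', hx'⟩ : ∃ x', x' ∉ A ∪ B ∪ B.image σ.symm := Infinite.exists_notMem_finset _
    simp only [Finset.mem_union, Finset.mem_image, not_or, not_exists, not_and] at hx'
    obtain ⟨⟨hx'A, hx'B⟩, hx'σ⟩ := hx'
    have hsw : Equiv.swap x x' • ω = ω := hB _ fun n hn =>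
      Equiv.swap_apply_of_ne_of_ne (fun h => hxB (h ▸ hn)) (fun h => hx'B (h ▸ hn))
    have h1 := hcase (σ * Equiv.swap x x') (fun n hn => by
      rw [Finset.mem_erase] at hn
      rw [Equiv.Perm.mul_apply, Equiv.swap_apply_of_ne_of_ne hn.1
        (fun h : n = x' => hx'A (h ▸ hn.2)), hσ n (Finset.mem_erase.2 hn)]) (by
      rw [Equiv.Perm.mul_apply, Equiv.swap_apply_left]
      intro h
      exact hx'σ _ h (σ.symm_apply_apply x'))
    rw [mul_smul, hsw] at h1
    exact h1
  have h1 := hmin _ hsup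
  rw [Finset.card_erase_of_mem hx] at h1
  have h2 : 0 < A.card := Finset.card_pos.2 ⟨x, hx⟩
  omega

/-- a tame action has a coded form. -/
theorem exists_dom (hT : Tame Ω) : ∃ (N d : ℕ) (E : Dom Ω (Fin N) d),
    ∀ (σ : Equiv.Perm ℕ) (ω : Ω), E.act σ ω = σ • ω := by
  classical
  obtain ⟨R, hR, hRorb⟩ := hT.finite_orbits
  obtain ⟨N, ⟨e⟩⟩ := Finite.exists_equiv_fin R (h := hR)
  let r : Fin N → Ω := fun k => (e.symm k : Ω)
  have hr : ∀ ω, ∃ k, ∃ σ : Equiv.Perm ℕ, σ • r k = ω := by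
    intro ω
    obtain ⟨x, hx, σ, hσ⟩ := hRorb ω
    refine ⟨e ⟨x, hx⟩, σ, ?_⟩
    show σ • ((e.symm (e ⟨x, hx⟩) : R) : Ω) = ω
    rw [Equiv.symm_apply_apply, hσ]
  have hA : ∀ k, ∃ A : Finset ℕ, Supports A (r k) ∧
      ∀ S : Finset ℕ, Supports S (r k) → A.card ≤ S.card := by
    intro k
    have hex : ∃ c, ∃ G : Finset ℕ, Supports G (r k) ∧ G.card = c := by
      obtain ⟨G, hG⟩ := hT.finite_support (r k)
      exact ⟨_, G, hG, rfl⟩
    obtain ⟨G, hG, hc⟩ := Nat.find_spec hex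
    refine ⟨G, hG, fun G' hG' => ?_⟩
    rw [hc]
    exact Nat.find_min' hex ⟨G', hG', rfl⟩
  choose A hA hAmin using hA
  let d : ℕ := (Finset.univ.biUnion A).sup id + 1
  have hd : ∀ k, ∀ n ∈ A k, n < d := by
    intro k n hn
    have := Finset.le_sup (f := id) (Finset.mem_biUnion.2 ⟨k, Finset.mem_univ k, hn⟩)
    exact Nat.lt_succ_of_le this
  let b : Fin N → Fin d → Option ℕ := fun k x => if (x : ℕ) ∈ A k then some (x : ℕ) else none
  have hb1 : ∀ k n (hn : n ∈ A k), b k ⟨n, hd k n hn⟩ = some n := fun k n hn => if_pos hn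
  have hb2 : ∀ k x n, b k x = some n → n ∈ A k := by
    intro k x n h
    simp only [b] at h
    split_ifs at h with h1
    rw [← Option.some.inj h]
    exact h1
  let D : Set (Cod (Fin N) d) := {c | ∃ (σ : Equiv.Perm ℕ) (k : Fin N), c = cmap σ (k, b k)}
  let pt : Cod (Fin N) d → Ω := fun c =>
    if h : ∃ σ : Equiv.Perm ℕ, c = cmap σ (c.1, b c.1) then h.choose • r c.1 else r c.1
  have hpt : ∀ (σ : Equiv.Perm ℕ) k, pt (cmap σ (k, b k)) = σ • r k := by
    intro σ k
    have hex : ∃ τ : Equiv.Perm ℕ, cmap σ (k, b k) =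
        cmap τ ((cmap σ ((k, b k) : Cod (Fin N) d)).1, b (cmap σ ((k, b k) : Cod (Fin N) d)).1) :=
      ⟨σ, rfl⟩
    have h1 : pt (cmap σ (k, b k)) = hex.choose • r k := dif_pos hex
    rw [h1]
    refine (hA k).congr fun n hn => ?_
    have h2 := congrArg (fun c : Cod (Fin N) d => c.2 ⟨n, hd k n hn⟩) hex.choose_spec
    have h3 : (some (σ n) : Option ℕ) = some (hex.choose n) := by
      have h4 : ∀ τ : Equiv.Perm ℕ, (cmap τ ((k, b k) : Cod (Fin N) d)).2 ⟨n, hd k n hn⟩ =
          some (τ n) := fun τ => by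
        show (b k ⟨n, hd k n hn⟩).map τ = _
        rw [hb1 k n hn]
        rfl
      rw [← h4 σ, ← h4]
      exact h2
    exact (Option.some.inj h3).symm
  have hDperm : ∀ c ∈ D, ∀ τ : Equiv.Perm ℕ, cmap τ c ∈ D ∧ pt (cmap τ c) = τ • pt c := by
    rintro _ ⟨σ, k, rfl⟩ τ
    rw [cmap_comp]
    have : (τ : ℕ → ℕ) ∘ (σ : ℕ → ℕ) = ((τ * σ : Equiv.Perm ℕ) : ℕ → ℕ) := rfl
    rw [this, hpt, hpt, mul_smul]
    exact ⟨⟨τ * σ, k, rfl⟩, rfl⟩
  have hDinj : ∀ c : Cod (Fin N) d, ∀ h : ℕ → ℕ, Function.Injective h → ∀ T : Finset ℕ,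
      idx c ⊆ T → ∃ τ : Equiv.Perm ℕ, (∀ n ∈ T, τ n = h n) ∧ cmap h c = cmap τ c := by
    intro c h hh T hT
    obtain ⟨τ, hτ⟩ := perm_ext T h hh.injOn
    refine ⟨τ, hτ, cmap_congr fun x n hx => (hτ n (hT (mem_idx.2 ⟨x, hx⟩))).symm⟩
  choose sk sσ hs using hr
  let E : Dom Ω (Fin N) d :=
    { D := D
      pt := pt
      s := fun ω => cmap (sσ ω) (sk ω, b (sk ω))
      s_mem := fun ω => ⟨sσ ω, sk ω, rfl⟩
      pt_s := fun ω => by
        rw [hpt, hs]
      D_act := by
        intro c hc h hh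
        obtain ⟨τ, -, hτ⟩ := hDinj c h hh _ (Finset.Subset.refl _)
        rw [hτ]
        exact (hDperm c hc τ).1
      pt_act := by
        intro c hc c' hc' h hh hcc
        obtain ⟨τ, hτ⟩ := perm_ext (idx c ∪ idx c') h hh.injOn
        have h1 : cmap h c = cmap τ c := cmap_congr fun x n hx =>
          (hτ n (Finset.mem_union_left _ (mem_idx.2 ⟨x, hx⟩))).symm
        have h2 : cmap h c' = cmap τ c' := cmap_congr fun x n hx =>
          (hτ n (Finset.mem_union_right _ (mem_idx.2 ⟨x, hx⟩))).symm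
        rw [h1, h2, (hDperm c hc τ).2, (hDperm c' hc' τ).2, hcc]
      min := by
        intro c hc x n h hh hx hn hpc
        obtain ⟨τ, hτ, hcτ⟩ := hDinj c h hh _ (Finset.Subset.refl _)
        rw [hcτ, (hDperm c hc τ).2] at hpc
        obtain ⟨σ, k, rfl⟩ := hc
        rw [hpt] at hpc
        -- the conjugate fixes the representative
        have hidx : ∀ m, m ∈ A k → ∃ x', (cmap σ ((k, b k) : Cod (Fin N) d)).2 x' =
            some (σ m) := by
          intro m hm
          refine ⟨⟨m, hd k m hm⟩, ?_⟩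
          show (b k ⟨m, hd k m hm⟩).map σ = _
          rw [hb1 k m hm]
          rfl
        have hx' : ((b k x).map σ) = some n := hx
        rw [Option.map_eq_some_iff] at hx'
        obtain ⟨a, ha, han⟩ := hx'
        have haA := hb2 k x a ha
        let ρ : Equiv.Perm ℕ := σ⁻¹ * τ * σ
        have hρ : ρ • r k = r k := by
          show (σ⁻¹ * τ * σ) • r k = r k
          rw [mul_smul, mul_smul, hpc, inv_smul_smul]
        have hρa : ρ a ∉ A k := by
          intro h1
          obtain ⟨x', hx'⟩ := hidx _ h1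
          apply hn x'
          rw [hx']
          show some (σ (σ.symm (τ (σ a)))) = _
          rw [Equiv.apply_symm_apply, han, hτ n (mem_idx.2 ⟨x, hx⟩)]
        have hB : Supports ((A k).image ρ) (r k) := by
          intro θ hθ
          have h1 : (ρ⁻¹ * θ * ρ) • r k = r k := hA k _ fun m hm => by
            show ρ⁻¹ (θ (ρ m)) = m
            rw [hθ _ (Finset.mem_image_of_mem _ hm)]
            exact ρ.symm_apply_apply m
          rw [mul_smul, mul_smul, hρ] at h1
          have h2 := congrArg (fun z => ρ • z) h1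
          simp only [smul_inv_smul] at h2
          rw [h2, hρ]
        have hsub := min_support_sub (hA k) (hAmin k) hB
        have heq : A k = (A k).image ρ := Finset.eq_of_subset_of_card_le hsub
          (Finset.card_image_le)
        exact hρa (heq ▸ Finset.mem_image_of_mem ρ haA) }
  refine ⟨N, d, E, fun σ ω => ?_⟩
  show pt (cmap σ (cmap (sσ ω) (sk ω, b (sk ω)))) = σ • ω
  rw [(hDperm _ ⟨sσ ω, sk ω, rfl⟩ σ).2, hpt, hs]

end Pool.Agent.KS6_94.AI
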