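import Mathlib
import Pool.Agent.KS6_94.AI.Action

set_option autoImplicit false
set_option linter.unusedVariables false

open FirstOrder

namespace Pool.Agent.KS6_94.AI

universe u v

/-- definable sets are invariant under the permutations that fix the parameters. -/
lemma definable_invariant {α : Type} {B : Set ℕ} {S : Set (α → ℕ)} (hS : EqDefinable B S)
    (σ : Equiv.Perm ℕ) (hσ : ∀ b ∈ B, σ b = b) (x : α → ℕ) (hx : x ∈ S) :
    (fun i => σ (x i)) ∈ S := by
  let _ : Language.empty.Structure ℕ := Language.emptyStructure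
  obtain ⟨φ, rfl⟩ := hS
  let g : ℕ ≃[Language.empty[[B]]] ℕ :=
    { toEquiv := σ
      map_fun' := by
        intro n f x
        rcases f with f | c
        · exact Empty.elim f
        · cases n with
          | zero => exact hσ _ (Subtype.prop (c : B))
          | succ n => exact PEmpty.elim c
      map_rel' := by
        intro n r x
        rcases r with r | r
        · exact Empty.elim r
        · exact Empty.elim r }
  have h := FirstOrder.Language.StrongHomClass.realize_formula g φ (v := x)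
  exact h.2 hx

/-- the action of a permutation of the indices on `ℕ`, fixing the parameters -/
noncomputable def lift {B : Set ℕ} [DecidablePred (· ∉ B)] (θ : ℕ ≃ {n // n ∉ B})
    (σ : Equiv.Perm ℕ) : Equiv.Perm ℕ := σ.extendDomain θ

/-- A structure with an interpretation in `(ℕ, =)` carries a tame action that preserves its
relations. -/
theorem interp_action {Ω : Type v} {A : Set (Σ k : ℕ, Set (Fin k → Ω))} (I : Interpretation A) :
    ∃ _ : MulAction (Equiv.Perm ℕ) Ω, Tame Ω ∧
      ∀ σ : Equiv.Perm ℕ, ∀ R ∈ A, ∀ x ∈ R.2, (fun i => σ • x i) ∈ R.2 := by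
  classical
  obtain ⟨d, B, hB, dom, h, hsurj, hdom, hker, hrel⟩ := I
  have hBc : Infinite {n // n ∉ B} := Set.infinite_coe_iff.2 hB.infinite_compl
  obtain ⟨θ⟩ : Nonempty (ℕ ≃ {n // n ∉ B}) := by
    have h1 : Countable {n // n ∉ B} := inferInstance
    obtain ⟨e⟩ := nonempty_denumerable {n // n ∉ B}
    exact ⟨(Denumerable.eqv _).symm⟩
  have hfix : ∀ (σ : Equiv.Perm ℕ) (b : ℕ), b ∈ B → lift θ σ b = b := fun σ b hb =>
    Equiv.Perm.extendDomain_apply_not_subtype _ _ (not_not.2 hb)
  have hmove : ∀ (σ : Equiv.Perm ℕ) (n : ℕ), lift θ σ (θ n) = θ (σ n) := fun σ n =>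
    Equiv.Perm.extendDomain_apply_image _ _ _
  have hone : lift θ (1 : Equiv.Perm ℕ) = 1 := Equiv.Perm.extendDomain_one _
  have hmul : ∀ σ τ : Equiv.Perm ℕ, lift θ (σ * τ) = lift θ σ * lift θ τ := fun σ τ =>
    (Equiv.Perm.extendDomain_mul _ _ _).symm
  have hd : ∀ (σ : Equiv.Perm ℕ) (a : Fin d → ℕ), a ∈ dom →
      (fun j => lift θ σ (a j)) ∈ dom := fun σ a ha =>
    definable_invariant hdom _ (fun b hb => hfix σ b hb) a ha
  have hk : ∀ (σ : Equiv.Perm ℕ) (a a' : Fin d → ℕ), a ∈ dom → a' ∈ dom → h a = h a' →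
      h (fun j => lift θ σ (a j)) = h (fun j => lift θ σ (a' j)) := by
    intro σ a a' ha ha' hh
    have h1 := definable_invariant hker _ (fun b hb => hfix σ b hb)
      (fun p => (![a, a'] : Fin 2 → Fin d → ℕ) p.1 p.2) (by
        refine ⟨fun i => ?_, hh⟩
        fin_cases i
        · exact ha
        · exact ha')
    exact h1.2
  choose s hs hhs using hsurj
  have hact : ∀ (σ : Equiv.Perm ℕ) (a : Fin d → ℕ), a ∈ dom →
      h (fun j => lift θ σ (s (h a) j)) = h (fun j => lift θ σ (a j)) := fun σ a ha =>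
    hk σ _ _ (hs _) ha (hhs _)
  let inst : MulAction (Equiv.Perm ℕ) Ω :=
    { smul := fun σ ω => h (fun j => lift θ σ (s ω j))
      one_smul := fun ω => by
        show h (fun j => lift θ 1 (s ω j)) = ω
        rw [hone]
        exact hhs ω
      mul_smul := fun σ τ ω => by
        show h (fun j => lift θ (σ * τ) (s ω j)) =
          h (fun j => lift θ σ (s (h fun j => lift θ τ (s ω j)) j))
        rw [hact σ _ (hd τ _ (hs ω)), hmul]
        rfl }
  have hsmul : ∀ (σ : Equiv.Perm ℕ) (a : Fin d → ℕ), a ∈ dom →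
      σ • h a = h (fun j => lift θ σ (a j)) := hact
  refine ⟨inst, ⟨?_, ?_⟩, ?_⟩
  · -- finitely many orbits
    have hBf : Finite B := hB
    let Ty : Type := (Fin d → Option B) × Set (Fin d × Fin d)
    have hTy : Finite Ty := inferInstanceAs (Finite (_ × _))
    let ty : (Fin d → ℕ) → Ty := fun a =>
      (fun j => if hj : a j ∈ B then some ⟨a j, hj⟩ else none, {p | a p.1 = a p.2})
    let rep : Ty → Option Ω := fun τ =>
      if hτ : ∃ a ∈ dom, ty a = τ then some (h hτ.choose) else none
    refine ⟨{ω | some ω ∈ Set.range rep}, ?_, ?_⟩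
    · exact Set.Finite.preimage (Option.some_injective _).injOn (Set.finite_range rep)
    intro ω
    obtain ⟨a, ha, rfl⟩ : ∃ a ∈ dom, h a = ω := ⟨s ω, hs ω, hhs ω⟩
    have hex : ∃ a' ∈ dom, ty a' = ty a := ⟨a, ha, rfl⟩
    obtain ⟨hc1, hc2⟩ := hex.choose_spec
    have hrep : rep (ty a) = some (h hex.choose) := dif_pos hex
    refine ⟨h hex.choose, ⟨ty a, hrep⟩, ?_⟩
    generalize hex.choose = c at hc1 hc2
    have hBiff : ∀ j, c j ∈ B ↔ a j ∈ B := by
      intro j
      have h1 := congrFun (congrArg Prod.fst hc2) j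
      simp only [ty] at h1
      by_cases hcj : c j ∈ B <;> by_cases haj : a j ∈ B
      · exact iff_of_true hcj haj
      · rw [dif_pos hcj, dif_neg haj] at h1
        exact absurd h1 (by simp)
      · rw [dif_neg hcj, dif_pos haj] at h1
        exact absurd h1 (by simp)
      · exact iff_of_false hcj haj
    have hBeq : ∀ j, c j ∈ B → c j = a j := by
      intro j hcj
      have h1 := congrFun (congrArg Prod.fst hc2) j
      simp only [ty] at h1
      rw [dif_pos hcj, dif_pos ((hBiff j).1 hcj)] at h1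
      exact congrArg Subtype.val (Option.some.inj h1)
    have heq : ∀ j j', c j = c j' ↔ a j = a j' := by
      intro j j'
      have h1 : (j, j') ∈ (ty c).2 ↔ (j, j') ∈ (ty a).2 := by rw [hc2]
      exact h1
    let θi : ℕ → ℕ := fun m => if hm : m ∉ B then θ.symm ⟨m, hm⟩ else 0
    have hθi : ∀ m, m ∉ B → (θ (θi m) : ℕ) = m := by
      intro m hm
      have h1 : θi m = θ.symm ⟨m, hm⟩ := dif_pos hm
      rw [h1, Equiv.apply_symm_apply]
    have hθi2 : ∀ n, θi (θ n : ℕ) = n := by
      intro n
      have h1 : θi (θ n : ℕ) = θ.symm ⟨(θ n : ℕ), (θ n).2⟩ := dif_pos (θ n).2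
      rw [h1]
      exact θ.symm_apply_apply n
    let v : ℕ → ℕ := fun n => if hn : ∃ j, (θ n : ℕ) = c j then θi (a hn.choose) else n
    have hv : ∀ n j, (θ n : ℕ) = c j → v n = θi (a j) := by
      intro n j hj
      have hn : ∃ j, (θ n : ℕ) = c j := ⟨j, hj⟩
      have h1 : v n = θi (a hn.choose) := dif_pos hn
      rw [h1, (heq hn.choose j).1 (hn.choose_spec.symm.trans hj)]
    let T : Finset ℕ := (Finset.univ.filter fun j => c j ∉ B).image fun j => θi (c j)
    have hT : ∀ n ∈ T, ∃ j, (θ n : ℕ) = c j ∧ a j ∉ B := by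
      intro n hn
      obtain ⟨j, hj, rfl⟩ := Finset.mem_image.1 hn
      have hj' : c j ∉ B := (Finset.mem_filter.1 hj).2
      exact ⟨j, hθi _ hj', fun h1 => hj' ((hBiff j).2 h1)⟩
    obtain ⟨σ, hσ⟩ := perm_ext T v (by
      intro n hn n' hn' hnn
      obtain ⟨j, hj, haj⟩ := hT n hn
      obtain ⟨j', hj', haj'⟩ := hT n' hn'
      rw [hv n j hj, hv n' j' hj'] at hnn
      have h1 : a j = a j' := by rw [← hθi _ haj, hnn, hθi _ haj']
      have h2 : (θ n : ℕ) = θ n' := by rw [hj, hj', (heq j j').2 h1]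
      exact θ.injective (Subtype.ext h2))
    refine ⟨σ, ?_⟩
    rw [hsmul σ c hc1]
    congr 1
    funext j
    by_cases hcj : c j ∈ B
    · rw [hfix σ _ hcj, hBeq j hcj]
    · have haj : a j ∉ B := fun h1 => hcj ((hBiff j).2 h1)
      have hmem : θi (c j) ∈ T := Finset.mem_image.2 ⟨j, Finset.mem_filter.2
        ⟨Finset.mem_univ j, hcj⟩, rfl⟩
      conv_lhs => rw [← hθi _ hcj]
      rw [hmove, hσ _ hmem, hv _ j (hθi _ hcj), hθi _ haj]
  · -- finite supports
    intro ω
    have hfin : {n | (θ n : ℕ) ∈ Set.range (s ω)}.Finite := by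
      refine Set.Finite.preimage ?_ (Set.finite_range (s ω))
      exact (Subtype.val_injective.comp θ.injective).injOn
    refine ⟨hfin.toFinset, fun σ hσ => ?_⟩
    show h (fun j => lift θ σ (s ω j)) = ω
    have : (fun j => lift θ σ (s ω j)) = s ω := by
      funext j
      by_cases hj : s ω j ∈ B
      · exact hfix σ _ hj
      · obtain ⟨n, hn⟩ := θ.surjective ⟨s ω j, hj⟩
        have hn' : (θ n : ℕ) = s ω j := congrArg Subtype.val hn
        rw [← hn', hmove, hσ n (hfin.mem_toFinset.2 ⟨j, hn'.symm⟩)]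
    rw [this, hhs]
  · intro σ R hR x hx
    have h1 := definable_invariant (hrel R hR) _ (fun b hb => hfix σ b hb)
      (fun p => s (x p.1) p.2) (by
        refine ⟨fun i => (hs (x i) : s (x i) ∈ dom), ?_⟩
        have : (fun i => h fun j => s (x i) j) = x := funext fun i => hhs (x i)
        show (fun i => h fun j => s (x i) j) ∈ R.2
        rw [this]
        exact hx)
    exact h1.2

/-- polymorphism clones are closed. -/
theorem pol_mem_of_approx {Ω : Type v} (A : Set (Σ k : ℕ, Set (Fin k → Ω))) (n : ℕ) (f : Op Ω n)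
    (h : ∀ T : Finset (Fin (n + 1) → Ω), ∃ g ∈ (Pol A).ops n, ∀ t ∈ T, g t = f t) :
    f ∈ (Pol A).ops n := by
  classical
  intro R hR r hr
  obtain ⟨g, hg, hgf⟩ := h (Finset.univ.image fun i => fun j => r j i)
  have h1 := hg R hR r hr
  have h2 : (fun i => g fun j => r j i) = fun i => f fun j => r j i :=
    funext fun i => hgf _ (Finset.mem_image_of_mem _ (Finset.mem_univ i))
  rwa [h2] at h1

end Pool.Agent.KS6_94.AI
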