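import Mathlib
import Pool.Agent.KS6_94.AI.Ramsey
import Pool.Agent.KS6_94.AI.Base

set_option autoImplicit false
set_option linter.unusedVariables false

namespace Pool.Agent.KS6_94.AI

universe u v

variable {K : Type} {d : ℕ}

/-- two families of codes have the same type -/
structure SameType {T : Type*} (G G' : T → Cod K d) : Prop where
  cls : ∀ t, (G t).1 = (G' t).1
  eq : ∀ t x t' x', (G t).2 x = (G t').2 x' ↔ (G' t).2 x = (G' t').2 x'
  none : ∀ t x, (G t).2 x = none ↔ (G' t).2 x = none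

lemma SameType.symm {T : Type*} {G G' : T → Cod K d} (h : SameType G G') : SameType G' G :=
  ⟨fun t => (h.cls t).symm, fun t x t' x' => (h.eq t x t' x').symm, fun t x => (h.none t x).symm⟩

lemma SameType.cmap {T : Type*} {G G' : T → Cod K d} (h : SameType G G') {u u' : ℕ → ℕ}
    (hu : Function.Injective u) (hu' : Function.Injective u') :
    SameType (fun t => AI.cmap u (G t)) (fun t => AI.cmap u' (G' t)) := by
  refine ⟨fun t => h.cls t, fun t x t' x' => ?_, fun t x => ?_⟩
  · show (((G t).2 x).map u = ((G t').2 x').map u) ↔ (((G' t).2 x).map u' = ((G' t').2 x').map u')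
    rw [(Option.map_injective hu).eq_iff, (Option.map_injective hu').eq_iff]
    exact h.eq t x t' x'
  · show (((G t).2 x).map u = Option.none) ↔ (((G' t).2 x).map u' = Option.none)
    rw [Option.map_eq_none_iff, Option.map_eq_none_iff]
    exact h.none t x

/-- the function that is the identity below `m` and `h` from `m` on. -/
def bt (m : ℕ) (h : ℕ → ℕ) : ℕ → ℕ := fun x => if x < m then x else h x

lemma exists_enum (Z : Finset ℕ) (m r : ℕ) (hZ : Z.card ≤ r) : ∃ a : Fin r → ℕ,
    StrictMono a ∧ (∀ i, m ≤ a i) ∧ ∀ z ∈ Z, m ≤ z → ∃ i, a i = z := by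
  classical
  have h1 : (Z.image fun z => z - m).card ≤ r := Finset.card_image_le.trans hZ
  obtain ⟨S, hES, hS⟩ := Infinite.exists_superset_card_eq _ _ h1
  refine ⟨fun i => S.orderEmbOfFin hS i + m, ?_, fun i => Nat.le_add_left _ _, ?_⟩
  · intro i j hij
    have := (S.orderEmbOfFin hS).strictMono hij
    simpa using this
  · intro z hz hmz
    have h2 : z - m ∈ Set.range (S.orderEmbOfFin hS) := by
      rw [Finset.range_orderEmbOfFin]
      exact Finset.mem_coe.2 (hES (Finset.mem_image_of_mem _ hz))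
    obtain ⟨i, hi⟩ := h2
    refine ⟨i, ?_⟩
    show S.orderEmbOfFin hS i + m = z
    rw [hi]
    omega

/-- evaluation of an index code -/
def evi {m r : ℕ} (a : Fin r → ℕ) : Fin m ⊕ Fin r → ℕ := Sum.elim (fun i : Fin m => (i : ℕ)) a

/-- evaluation of a code of a tuple of points. -/
def evc {n m r : ℕ} (a : Fin r → ℕ)
    (τ : Fin (n + 1) → K × (Fin d → Option (Fin m ⊕ Fin r))) (j : Fin (n + 1)) : Cod K d :=
  ((τ j).1, fun x => ((τ j).2 x).map (evi a))

lemma card_idx (c : Cod K d) : (idx c).card ≤ d := by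
  classical
  have h1 : idx c ⊆ Finset.univ.image (fun x => (c.2 x).getD 0) := by
    intro n hn
    obtain ⟨x, hx⟩ := mem_idx.1 hn
    exact Finset.mem_image.2 ⟨x, Finset.mem_univ _, by rw [hx]; rfl⟩
  refine (Finset.card_le_card h1).trans (Finset.card_image_le.trans ?_)
  simp

lemma exists_codec {Ω : Type v} (E : Dom Ω K d) (n m : ℕ) (t t' : Fin (n + 1) → Ω) :
    ∃ (a : Fin (2 * ((n + 1) * d)) → ℕ)
      (τ τ' : Fin (n + 1) → K × (Fin d → Option (Fin m ⊕ Fin (2 * ((n + 1) * d))))),
      StrictMono a ∧ (∀ i, m ≤ a i) ∧ (∀ j, E.s (t j) = evc a τ j) ∧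
        ∀ j, E.s (t' j) = evc a τ' j := by
  classical
  let Z : Finset ℕ := (Finset.univ.biUnion fun j => idx (E.s (t j))) ∪
    (Finset.univ.biUnion fun j => idx (E.s (t' j)))
  have hb : ∀ t : Fin (n + 1) → Ω,
      (Finset.univ.biUnion fun j => idx (E.s (t j))).card ≤ (n + 1) * d := by
    intro t
    refine Finset.card_biUnion_le.trans ?_
    refine (Finset.sum_le_sum fun j _ => card_idx (E.s (t j))).trans ?_
    simp
  have hZ : Z.card ≤ 2 * ((n + 1) * d) := by
    refine (Finset.card_union_le _ _).trans ?_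
    have h1 := hb t
    have h2 := hb t'
    omega
  obtain ⟨a, ha, ham, haZ⟩ := exists_enum Z m _ hZ
  have hcode : ∀ s : Fin (n + 1) → Ω, (∀ j, idx (E.s (s j)) ⊆ Z) →
      ∃ τ : Fin (n + 1) → K × (Fin d → Option (Fin m ⊕ Fin (2 * ((n + 1) * d)))),
        ∀ j, E.s (s j) = evc a τ j := by
    intro s hs
    have h1 : ∀ j x, ∃ o : Option (Fin m ⊕ Fin (2 * ((n + 1) * d))),
        (E.s (s j)).2 x = o.map (evi a) := by
      intro j x
      rcases hx : (E.s (s j)).2 x with _ | z
      · exact ⟨none, rfl⟩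
      · by_cases hz : z < m
        · exact ⟨some (Sum.inl ⟨z, hz⟩), rfl⟩
        · obtain ⟨i, hi⟩ := haZ z (hs j (mem_idx.2 ⟨x, hx⟩)) (not_lt.1 hz)
          exact ⟨some (Sum.inr i), by rw [← hi]; rfl⟩
    choose o ho using h1
    refine ⟨fun j => ((E.s (s j)).1, o j), fun j => ?_⟩
    exact Prod.ext rfl (funext fun x => ho j x)
  obtain ⟨τ, hτ⟩ := hcode t fun j => (Finset.subset_biUnion_of_mem
    (fun j => idx (E.s (t j))) (Finset.mem_univ j)).trans Finset.subset_union_left
  obtain ⟨τ', hτ'⟩ := hcode t' fun j => (Finset.subset_biUnion_of_mem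
    (fun j => idx (E.s (t' j))) (Finset.mem_univ j)).trans Finset.subset_union_right
  exact ⟨a, τ, τ', ha, ham, hτ, hτ'⟩

/-- The canonical form of an operation: finitely many types suffice. -/
theorem ramsey_kernel {Ω : Type v} [Finite K] (E : Dom Ω K d) (n m : ℕ) :
    ∃ (K' : Type) (_ : Finite K') (T : K' → ((Fin (n + 1) → Ω) → Cod K d) → Prop),
      (∀ k G G', T k G → T k G' → SameType G G') ∧
      ∀ f : Op Ω n, ∃ (k : K') (h : ℕ → ℕ),
        Function.Injective h ∧ (∀ z, Odd (h z) ∧ m ≤ h z) ∧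
        T k (fun t => E.s (f (fun j => E.act (bt m h) (t j)))) := by
  classical
  let r : ℕ := 2 * ((n + 1) * d)
  let Cd : Type := Fin (n + 1) → K × (Fin d → Option (Fin m ⊕ Fin r))
  have hCd : Finite Cd := inferInstanceAs (Finite (Fin (n + 1) → K × (Fin d → Option _)))
  let K' : Type := (Cd → K) × Set ((Cd × Fin d) × (Cd × Fin d)) × Set (Cd × Fin d)
  have hK' : Finite K' := inferInstanceAs (Finite (_ × _))
  let q : ℕ → ℕ := fun z => 2 * (z + m) + 1
  refine ⟨K', hK', fun k G => ∀ a : Fin r → ℕ, StrictMono a → (∀ i, m ≤ a i) →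
    ∀ (t : Fin (n + 1) → Ω) (τ : Cd), (∀ j, E.s (t j) = evc a τ j) →
      (G t).1 = k.1 τ ∧ (∀ x, (G t).2 x = none ↔ (τ, x) ∈ k.2.2) ∧
      ∀ (t' : Fin (n + 1) → Ω) (τ' : Cd), (∀ j, E.s (t' j) = evc a τ' j) →
        ∀ x x', ((G t).2 x = (G t').2 x' ↔ ((τ, x), (τ', x')) ∈ k.2.1), ?_, ?_⟩
  · intro k G G' h h'
    refine ⟨fun t => ?_, fun t x t' x' => ?_, fun t x => ?_⟩
    · obtain ⟨a, τ, -, h1, h2, h3, -⟩ := exists_codec E n m t t
      rw [(h a h1 h2 t τ h3).1, (h' a h1 h2 t τ h3).1]
    · obtain ⟨a, τ, τ', h1, h2, h3, h4⟩ := exists_codec E n m t t'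
      rw [(h a h1 h2 t τ h3).2.2 t' τ' h4, (h' a h1 h2 t τ h3).2.2 t' τ' h4]
    · obtain ⟨a, τ, -, h1, h2, h3, -⟩ := exists_codec E n m t t
      rw [(h a h1 h2 t τ h3).2.1, (h' a h1 h2 t τ h3).2.1]
  intro f
  let out : (Fin r → ℕ) → Cd → Cod K d := fun a τ => E.s (f (fun j => E.pt (evc a τ j)))
  let data : (Fin r → ℕ) → K' := fun a => (fun τ => (out a τ).1,
    {p | (out a p.1.1).2 p.1.2 = (out a p.2.1).2 p.2.2}, {p | (out a p.1).2 p.2 = none})
  let colour : Finset ℕ → Option K' := fun S => if hS : S.card = r then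
    some (data (fun i => q (S.orderEmbOfFin hS i))) else none
  obtain ⟨H, c', hH, hc'⟩ := infinite_ramsey r colour
  have hHs : (Set.ofPred fun x => x ∈ H).Infinite := hH
  let nh : ℕ → ℕ := Nat.nth (fun x => x ∈ H)
  have hnm : StrictMono nh := Nat.nth_strictMono hHs
  have hnH : ∀ z, nh z ∈ H := fun z => Nat.nth_mem_of_infinite hHs z
  obtain ⟨c, rfl⟩ : ∃ c, c' = some c := by
    let S : Finset ℕ := Finset.univ.image fun i : Fin r => nh i
    have hS : S.card = r := by
      have hni : Function.Injective fun i : Fin r => nh i :=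
        hnm.injective.comp Fin.val_injective
      rw [Finset.card_image_of_injective _ hni]
      simp
    have hSH : (↑S : Set ℕ) ⊆ H := by
      intro x hx
      obtain ⟨i, -, rfl⟩ := Finset.mem_image.1 (Finset.mem_coe.1 hx)
      exact hnH _
    have h1 := hc' S hS hSH
    have h2 : colour S = some _ := dif_pos hS
    rw [h2] at h1
    exact ⟨_, h1.symm⟩
  have hqm : StrictMono q := by
    intro a b hab
    show 2 * (a + m) + 1 < 2 * (b + m) + 1
    omega
  let h : ℕ → ℕ := fun z => q (nh z)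
  have hbi : Function.Injective (bt m h) := by
    have hmh : ∀ z, m ≤ h z := fun z => by
      show m ≤ 2 * (nh z + m) + 1
      omega
    have hh : Function.Injective h := (hqm.comp hnm).injective
    intro a b hab
    unfold bt at hab
    split_ifs at hab with h1 h2 h2
    · exact hab
    · have := hmh b
      omega
    · have := hmh a
      omega
    · exact hh hab
  have key : ∀ (a : Fin r → ℕ), StrictMono a → (∀ i, m ≤ a i) →
      ∃ a' : Fin r → ℕ, data a' = c ∧ ∀ (t : Fin (n + 1) → Ω) (τ : Cd),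
        (∀ j, E.s (t j) = evc a τ j) →
        E.s (f (fun j => E.act (bt m h) (t j))) = out a' τ := by
    intro a ha ham
    have hna : StrictMono fun i => nh (a i) := hnm.comp ha
    let S : Finset ℕ := Finset.univ.image fun i => nh (a i)
    have hS : S.card = r := by
      rw [Finset.card_image_of_injective _ hna.injective]
      simp
    have hSH : (↑S : Set ℕ) ⊆ H := by
      intro x hx
      obtain ⟨i, -, rfl⟩ := Finset.mem_image.1 (Finset.mem_coe.1 hx)
      exact hnH _
    have hord : (fun i => nh (a i)) = S.orderEmbOfFin hS :=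
      Finset.orderEmbOfFin_unique hS (fun i => Finset.mem_image_of_mem _ (Finset.mem_univ i)) hna
    refine ⟨fun i => q (S.orderEmbOfFin hS i), ?_, ?_⟩
    · have h1 := hc' S hS hSH
      have h2 : colour S = some _ := dif_pos hS
      rw [h2] at h1
      exact Option.some.inj h1
    · intro t τ ht
      show E.s (f _) = E.s (f _)
      congr 2
      funext j
      show E.pt (cmap (bt m h) (E.s (t j))) = E.pt _
      congr 1
      rw [ht j]
      refine Prod.ext rfl (funext fun x => ?_)
      show (((τ j).2 x).map (evi a)).map (bt m h) =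
        ((τ j).2 x).map (evi fun i => q (S.orderEmbOfFin hS i))
      rw [Option.map_map]
      congr 1
      funext o
      rcases o with i | i
      · exact if_pos i.2
      · show bt m h (a i) = q (S.orderEmbOfFin hS i)
        rw [← congrFun hord i]
        exact if_neg (not_lt.2 (ham i))
  refine ⟨c, h, (hqm.comp hnm).injective, ?_, ?_⟩
  · intro z
    refine ⟨⟨nh z + m, rfl⟩, ?_⟩
    show m ≤ 2 * (nh z + m) + 1
    omega
  · intro a ha ham t τ ht
    obtain ⟨a', ha', hout⟩ := key a ha ham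
    rw [← ha']
    refine ⟨?_, fun x => ?_, fun t' τ' ht' x x' => ?_⟩
    · show (E.s _).1 = _
      rw [hout t τ ht]
    · show (E.s _).2 x = none ↔ _
      rw [hout t τ ht]
      exact Iff.rfl
    · show (E.s _).2 x = (E.s _).2 x' ↔ _
      rw [hout t τ ht, hout t' τ' ht']
      exact Iff.rfl

end Pool.Agent.KS6_94.AI
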