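import Mathlib
import Pool.Agent.KS6_94.AI.Supp
import Pool.Agent.KS6_94.AI.Ram

set_option autoImplicit false
set_option linter.unusedVariables false

open Filter

namespace Pool.Agent.KS6_94.AI

universe u v

variable {K : Type} {d : ℕ}

lemma eventually_const_finite {ι K : Type*} [Finite K] (W : Ultrafilter ι) (Φ : ι → K) :
    ∃ b, ∀ᶠ i in (W : Filter ι), Φ i = b := by
  by_contra hcon
  push Not at hcon
  have h1 : ∀ b, ∀ᶠ i in (W : Filter ι), Φ i ≠ b := fun b => hcon b
  obtain ⟨i, hi⟩ := (Filter.eventually_all.2 h1).exists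
  exact hi _ rfl

lemma eventually_iff {ι : Type*} (W : Ultrafilter ι) {p : ι → Prop} {P : Prop}
    (h : P ↔ ∀ᶠ i in (W : Filter ι), p i) : ∀ᶠ i in (W : Filter ι), (p i ↔ P) := by
  by_cases hP : P
  · exact (h.1 hP).mono fun i hi => iff_of_true hi hP
  · exact (Ultrafilter.eventually_not.2 fun h' => hP (h.2 h')).mono
      fun i hi => iff_of_false hi hP

/-- no index is congruent to `2` modulo `3` -/
def Low (c : Cod K d) : Prop := ∀ x n, c.2 x = some n → n % 3 = 0

/-- factoring through a family of the same type. -/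
lemma exists_factor {T : Type*} {p q : T → Cod K d} (h : SameType p q)
    (hp : ∀ t, Low (p t)) :
    ∃ α : ℕ → ℕ, Function.Injective α ∧ (∀ t, cmap α (q t) = p t) ∧
      ∀ z, (∃ t x, (p t).2 x = some (α z)) ∨ α z = 3 * z + 2 := by
  classical
  have hget : ∀ t x z, (q t).2 x = some z → ∃ w, (p t).2 x = some w := by
    intro t x z hz
    rcases hx : (p t).2 x with _ | w
    · rw [(h.none t x).1 hx] at hz
      exact absurd hz (by simp)
    · exact ⟨w, rfl⟩
  let α : ℕ → ℕ := fun z => if hz : ∃ w, ∃ t x, (q t).2 x = some z ∧ (p t).2 x = some w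
    then hz.choose else 3 * z + 2
  have h1 : ∀ t x z w, (q t).2 x = some z → (p t).2 x = some w → α z = w := by
    intro t x z w hz hw
    have hex : ∃ w, ∃ t x, (q t).2 x = some z ∧ (p t).2 x = some w := ⟨w, t, x, hz, hw⟩
    have h2 : α z = hex.choose := dif_pos hex
    obtain ⟨t', x', h3, h4⟩ := hex.choose_spec
    rw [h2]
    have h5 := (h.eq t' x' t x).2 (h3.trans hz.symm)
    rw [h4, hw] at h5
    exact Option.some.inj h5
  have h2 : ∀ z, (¬ ∃ t x, (q t).2 x = some z) → α z = 3 * z + 2 := by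
    intro z hz
    exact dif_neg fun ⟨w, t, x, h3, h4⟩ => hz ⟨t, x, h3⟩
  have h3 : ∀ z, (∃ t x, (q t).2 x = some z ∧ (p t).2 x = some (α z)) ∨
      ((¬ ∃ t x, (q t).2 x = some z) ∧ α z = 3 * z + 2) := by
    intro z
    by_cases hz : ∃ t x, (q t).2 x = some z
    · obtain ⟨t, x, hx⟩ := hz
      obtain ⟨w, hw⟩ := hget t x z hx
      exact Or.inl ⟨t, x, hx, by rw [h1 t x z w hx hw, hw]⟩
    · exact Or.inr ⟨hz, h2 z hz⟩
  refine ⟨α, ?_, ?_, ?_⟩
  · intro z z' hzz
    rcases h3 z with ⟨t, x, h4, h5⟩ | ⟨h4, h5⟩ <;> rcases h3 z' with ⟨t', x', h6, h7⟩ | ⟨h6, h7⟩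
    · rw [hzz, ← h7] at h5
      have := (h.eq t x t' x').1 h5
      rw [h4, h6] at this
      exact Option.some.inj this
    · have := hp t x _ h5
      rw [hzz, h7] at this
      omega
    · have := hp t' x' _ h7
      rw [← hzz, h5] at this
      omega
    · rw [h5, h7] at hzz
      omega
  · intro t
    refine Prod.ext (h.cls t).symm (funext fun x => ?_)
    show ((q t).2 x).map α = (p t).2 x
    rcases hx : (q t).2 x with _ | z
    · exact ((h.none t x).2 hx).symm
    · obtain ⟨w, hw⟩ := hget t x z hx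
      rw [hw, Option.map_some, h1 t x z w hx hw]
  · intro z
    rcases h3 z with ⟨t, x, h4, h5⟩ | ⟨h4, h5⟩
    · exact Or.inl ⟨t, x, h5⟩
    · exact Or.inr h5

lemma mod_cinf {B : Set ℕ} (hB : ∀ x ∈ B, x % 3 = 0) : Bᶜ.Infinite := by
  have hinj : Function.Injective (fun j : ℕ => 3 * j + 1) := by
    intro a b h
    simp only at h
    omega
  refine (Set.infinite_range_of_injective hinj).mono ?_
  rintro _ ⟨j, rfl⟩ hx
  have h2 : (3 * j + 1) % 3 = 0 := hB _ hx
  omega

lemma bt_injective {m : ℕ} {h : ℕ → ℕ} (hh : Function.Injective h) (hm : ∀ z, m ≤ h z) :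
    Function.Injective (bt m h) := by
  intro a b hab
  unfold bt at hab
  split_ifs at hab with h1 h2 h2
  · exact hab
  · have := hm b
    omega
  · have := hm a
    omega
  · exact hh hab

/-- the first injection of the doubled index set. -/
def jP (m : ℕ) : ℕ → ℕ := bt m fun x => 2 * x

/-- the second injection. -/
def jQ (m : ℕ) : ℕ → ℕ := bt m fun x => 2 * x + 1

lemma jP_injective (m : ℕ) : Function.Injective (jP m) := by
  intro a b hab
  simp only [jP, bt] at hab
  split_ifs at hab <;> omega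

lemma jQ_injective (m : ℕ) : Function.Injective (jQ m) := by
  intro a b hab
  simp only [jQ, bt] at hab
  split_ifs at hab <;> omega

/-- the amalgamating injection. -/
def gam (m : ℕ) (h : ℕ → ℕ) : ℕ → ℕ := fun z => if z < m ∨ Even z then z else h (z / 2)

lemma gam_injective {m : ℕ} {h : ℕ → ℕ} (hh : Function.Injective h)
    (ho : ∀ z, Odd (h z) ∧ m ≤ h z) : Function.Injective (gam m h) := by
  intro a b hab
  unfold gam at hab
  split_ifs at hab with h1 h2 h2
  · exact hab
  · exfalso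
    have h3 := ho (b / 2)
    rw [← hab] at h3
    rcases h1 with h1 | h1
    · omega
    · exact (Nat.not_even_iff_odd.2 h3.1) h1
  · exfalso
    have h3 := ho (a / 2)
    rw [hab] at h3
    rcases h2 with h2 | h2
    · omega
    · exact (Nat.not_even_iff_odd.2 h3.1) h2
  · have h3 := hh hab
    push Not at h1 h2
    obtain ⟨a', ha'⟩ := Nat.not_even_iff_odd.1 h1.2
    obtain ⟨b', hb'⟩ := Nat.not_even_iff_odd.1 h2.2
    omega

lemma gam_jP (m : ℕ) (h : ℕ → ℕ) : gam m h ∘ jP m = jP m := by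
  funext x
  simp only [Function.comp_apply, gam, jP, bt]
  split_ifs with h1 h2 h2
  · rfl
  · exact absurd (Or.inl h1) h2
  · rfl
  · exact absurd (Or.inr (even_two_mul x)) h2

lemma gam_jQ (m : ℕ) (h : ℕ → ℕ) : gam m h ∘ jQ m = bt m h := by
  funext x
  simp only [Function.comp_apply, gam, jQ, bt]
  split_ifs with h1 h2 h2
  · rfl
  · exact absurd (Or.inl h1) h2
  · exfalso
    rcases h2 with h2 | h2
    · omega
    · exact absurd h2 (by simp)
  · congr 1
    omega

/-- tripling of the indices -/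
def tri : ℕ → ℕ := fun n => 3 * n

lemma tri_injective : Function.Injective tri := fun a b h => by
  have h' : 3 * a = 3 * b := h
  omega

lemma low_tri (c : Cod K d) : Low (cmap tri c) := by
  intro x n hx
  have h1 : (c.2 x).map tri = some n := hx
  rw [Option.map_eq_some_iff] at h1
  obtain ⟨a, -, h2⟩ := h1
  rw [← h2]
  show (3 * a) % 3 = 0
  omega

/-- limits of families of codes along ultrafilters. -/
lemma exists_limit [Finite K] {ι T : Type*} [Countable T] (W : Ultrafilter ι)
    (Φ : ι → T → Cod K d) : ∃ G : T → Cod K d,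
      (∀ t, ∀ᶠ i in (W : Filter ι), (Φ i t).1 = (G t).1) ∧
      (∀ t x t' x', (G t).2 x = (G t').2 x' ↔
        ∀ᶠ i in (W : Filter ι), (Φ i t).2 x = (Φ i t').2 x') ∧
      (∀ t x, (G t).2 x = none ↔ ∀ᶠ i in (W : Filter ι), (Φ i t).2 x = none) ∧
      (∀ t, Low (G t)) ∧
      ∀ T0 : Finset T, ∀ᶠ i in (W : Filter ι), ∃ σ : Equiv.Perm ℕ,
        ∀ t ∈ T0, cmap σ (Φ i t) = G t := by
  classical
  choose κ hκ using fun t => eventually_const_finite W (fun i => (Φ i t).1)
  let s : Setoid (T × Fin d) :=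
    { r := fun p p' => ∀ᶠ i in (W : Filter ι), (Φ i p.1).2 p.2 = (Φ i p'.1).2 p'.2
      iseqv :=
        ⟨fun t => Eventually.of_forall fun _ => rfl, fun h => h.mono fun _ hi => hi.symm,
          fun h h' => (h.and h').mono fun _ hi => hi.1.trans hi.2⟩ }
  obtain ⟨j, hj⟩ := exists_injective_nat (Quotient s)
  let G : T → Cod K d := fun t => (κ t, fun x =>
    if ∀ᶠ i in (W : Filter ι), (Φ i t).2 x = none then none
    else some (3 * j (Quotient.mk s (t, x))))
  have hG1 : ∀ t x, (∀ᶠ i in (W : Filter ι), (Φ i t).2 x = none) → (G t).2 x = none :=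
    fun t x h => if_pos h
  have hG2 : ∀ t x, ¬ (∀ᶠ i in (W : Filter ι), (Φ i t).2 x = none) →
      (G t).2 x = some (3 * j (Quotient.mk s (t, x))) := fun t x h => if_neg h
  have hnone : ∀ t x, (G t).2 x = none ↔ ∀ᶠ i in (W : Filter ι), (Φ i t).2 x = none := by
    intro t x
    refine ⟨fun h => ?_, hG1 t x⟩
    by_contra hcon
    rw [hG2 t x hcon] at h
    exact absurd h (by simp)
  have heq : ∀ t x t' x', (G t).2 x = (G t').2 x' ↔
      ∀ᶠ i in (W : Filter ι), (Φ i t).2 x = (Φ i t').2 x' := by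
    intro t x t' x'
    by_cases h : ∀ᶠ i in (W : Filter ι), (Φ i t).2 x = none <;>
      by_cases h' : ∀ᶠ i in (W : Filter ι), (Φ i t').2 x' = none
    · rw [hG1 t x h, hG1 t' x' h']
      exact iff_of_true rfl ((h.and h').mono fun i hi => hi.1.trans hi.2.symm)
    · rw [hG1 t x h, hG2 t' x' h']
      refine iff_of_false (by simp) fun h2 => h' ?_
      exact (h.and h2).mono fun i hi => hi.2.symm.trans hi.1
    · rw [hG2 t x h, hG1 t' x' h']
      refine iff_of_false (by simp) fun h2 => h ?_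
      exact (h'.and h2).mono fun i hi => hi.2.trans hi.1
    · rw [hG2 t x h, hG2 t' x' h', Option.some.injEq]
      constructor
      · intro h1
        have h2 : j (Quotient.mk s (t, x)) = j (Quotient.mk s (t', x')) := by omega
        exact Quotient.exact (hj h2)
      · intro h1
        rw [show Quotient.mk s (t, x) = Quotient.mk s (t', x') from
          Quotient.sound (s := s) h1]
  refine ⟨G, hκ, heq, hnone, ?_, ?_⟩
  · intro t x n hx
    by_cases h : ∀ᶠ i in (W : Filter ι), (Φ i t).2 x = none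
    · rw [hG1 t x h] at hx
      exact absurd hx (by simp)
    · rw [hG2 t x h, Option.some.injEq] at hx
      omega
  · intro T0
    have hev : ∀ᶠ i in (W : Filter ι), ∀ t ∈ T0, (Φ i t).1 = (G t).1 ∧
        (∀ x : Fin d, ((Φ i t).2 x = none ↔ (G t).2 x = none)) ∧
        ∀ t' ∈ T0, ∀ x x' : Fin d, ((Φ i t).2 x = (Φ i t').2 x' ↔ (G t).2 x = (G t').2 x') := by
      rw [Filter.eventually_all_finset]
      intro t _
      refine (hκ t).and (Filter.Eventually.and ?_ ?_)
      · rw [Filter.eventually_all]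
        exact fun x => eventually_iff W (hnone t x)
      · rw [Filter.eventually_all_finset]
        intro t' _
        rw [Filter.eventually_all]
        intro x
        rw [Filter.eventually_all]
        exact fun x' => eventually_iff W (heq t x t' x')
    refine hev.mono fun i hi => ?_
    let v : ℕ → ℕ := fun z => if hz : ∃ w, ∃ t ∈ T0, ∃ x, (Φ i t).2 x = some z ∧
      (G t).2 x = some w then hz.choose else z
    have hv : ∀ t ∈ T0, ∀ x z w, (Φ i t).2 x = some z → (G t).2 x = some w → v z = w := by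
      intro t ht x z w hz hw
      have hex : ∃ w, ∃ t ∈ T0, ∃ x, (Φ i t).2 x = some z ∧ (G t).2 x = some w :=
        ⟨w, t, ht, x, hz, hw⟩
      have h2 : v z = hex.choose := dif_pos hex
      obtain ⟨t', ht', x', h3, h4⟩ := hex.choose_spec
      rw [h2]
      have h5 := ((hi t' ht').2.2 t ht x' x).1 (h3.trans hz.symm)
      rw [h4, hw] at h5
      exact Option.some.inj h5
    have hget : ∀ t ∈ T0, ∀ x z, (Φ i t).2 x = some z → ∃ w, (G t).2 x = some w := by
      intro t ht x z hz
      rcases hx : (G t).2 x with _ | w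
      · rw [((hi t ht).2.1 x).2 hx] at hz
        exact absurd hz (by simp)
      · exact ⟨w, rfl⟩
    obtain ⟨σ, hσ⟩ := perm_ext (T0.biUnion fun t => idx (Φ i t)) v (by
      intro a ha b hb h
      rw [Finset.mem_coe, Finset.mem_biUnion] at ha hb
      obtain ⟨t, ht, hta⟩ := ha
      obtain ⟨t', ht', htb⟩ := hb
      obtain ⟨x, hx⟩ := mem_idx.1 hta
      obtain ⟨x', hx'⟩ := mem_idx.1 htb
      obtain ⟨w, hw⟩ := hget t ht x a hx
      obtain ⟨w', hw'⟩ := hget t' ht' x' b hx'
      rw [hv t ht x a w hx hw, hv t' ht' x' b w' hx' hw'] at h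
      have h2 := ((hi t ht).2.2 t' ht' x x').2 (by rw [hw, hw', h])
      rw [hx, hx'] at h2
      exact Option.some.inj h2)
    refine ⟨σ, fun t ht => ?_⟩
    refine Prod.ext (hi t ht).1 (funext fun x => ?_)
    show ((Φ i t).2 x).map σ = (G t).2 x
    rcases hx : (Φ i t).2 x with _ | z
    · exact (((hi t ht).2.1 x).1 hx).symm
    · obtain ⟨w, hw⟩ := hget t ht x z hx
      rw [hw, Option.map_some, hσ z (Finset.mem_biUnion.2 ⟨t, ht, mem_idx.2 ⟨x, hx⟩⟩),
        hv t ht x z w hx hw]

namespace Setup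

variable {Ω : Type v} {Y : Type u} {E : Dom Ω K d} {C : Clone Ω} {D : Clone Y}
  {X : ∀ n, Op Ω n → Op Y n}

/-- a limit of codes of members of the clone is the code of a member of the clone -/
lemma limit_mem (S : Setup E C D X) {n : ℕ} {ι : Type*} {W : Ultrafilter ι}
    {Φ : ι → (Fin (n + 1) → Ω) → Cod K d} (hD : ∀ i t, Φ i t ∈ E.D)
    (hΦ : ∀ i, (fun t => E.pt (Φ i t)) ∈ C.ops n) {G : (Fin (n + 1) → Ω) → Cod K d}
    (hG : ∀ T0 : Finset (Fin (n + 1) → Ω), ∀ᶠ i in (W : Filter ι), ∃ σ : Equiv.Perm ℕ,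
        ∀ t ∈ T0, cmap σ (Φ i t) = G t) :
    (∀ t, G t ∈ E.D) ∧ (fun t => E.pt (G t)) ∈ C.ops n := by
  classical
  constructor
  · intro t
    obtain ⟨i, σ, hσ⟩ := (hG {t}).exists
    rw [← hσ t (Finset.mem_singleton_self t)]
    exact E.D_act _ (hD i t) _ σ.injective
  · refine S.closedC n _ fun T => ?_
    obtain ⟨i, σ, hσ⟩ := (hG T).exists
    refine ⟨fun t => E.act σ (E.pt (Φ i t)), S.post_mem (hΦ i) σ.injective, fun t ht => ?_⟩
    show E.act σ (E.pt (Φ i t)) = E.pt (G t)
    rw [E.act_pt (hD i t) σ.injective, hσ t ht]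

lemma exists_bound (S : Setup E C D X) (y : Y) : ∃ m : ℕ,
    ∀ v : ℕ → ℕ, Function.Injective v → (∀ x < m, v x = x) → Ac E X v y = y := by
  obtain ⟨G, hG⟩ := S.exists_sup y
  refine ⟨G.sup id + 1, fun v hv h => S.Ac_fix hG hv fun n hn => h n ?_⟩
  have := Finset.le_sup (f := id) hn
  exact Nat.lt_succ_of_le this

lemma exists_bound_all (S : Setup E C D X) {n : ℕ}
    (y : Fin (n + 1) → Y) : ∃ m : ℕ, ∀ v : ℕ → ℕ, Function.Injective v →
      (∀ x < m, v x = x) → ∀ j, Ac E X v (y j) = y j := by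
  choose M hM using fun j => S.exists_bound (y j)
  refine ⟨Finset.univ.sup M, fun v hv h j => hM j v hv fun n hn => h n ?_⟩
  exact lt_of_lt_of_le hn (Finset.le_sup (Finset.mem_univ j))

/-- an operation whose values are coded by indices in `B` is fixed by the stabiliser of `B`. -/
lemma fix_of_range (S : Setup E C D X) {n : ℕ} {G : (Fin (n + 1) → Ω) → Cod K d}
    (hD : ∀ t, G t ∈ E.D) (hc : (fun t => E.pt (G t)) ∈ C.ops n)
    (y : Fin (n + 1) → Y) (σ : Equiv.Perm ℕ)
    (hσ : ∀ a ∈ {a | ∃ t x, (G t).2 x = some a}, σ a = a) :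
    Ac E X σ (X n (fun t => E.pt (G t)) y) = X n (fun t => E.pt (G t)) y := by
  rw [← S.X_post hc σ.injective]
  have : (fun t => E.act σ (E.pt (G t))) = fun t => E.pt (G t) := funext fun t => by
    rw [E.act_pt (hD t) σ.injective, cmap_eq_self fun x n hx => hσ n ⟨t, x, hx⟩]
  rw [this]

/-- the isomorphism respects limits along ultrafilters. -/
theorem limit_forward [Finite K] (S : Setup E C D X) {n : ℕ} {ι : Type*}
    (W : Ultrafilter ι) (Φ : ι → Op Ω n) (hΦ : ∀ i, Φ i ∈ C.ops n) {f : Op Ω n}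
    (hf : f ∈ C.ops n) (hlim : ∀ t, ∀ᶠ i in (W : Filter ι), Φ i t = f t)
    (y : Fin (n + 1) → Y) : ∀ᶠ i in (W : Filter ι), X n (Φ i) y = X n f y := by
  classical
  have hcount : Countable Ω := E.countable_of
  obtain ⟨m, hm⟩ := S.exists_bound_all y
  obtain ⟨K', hK', T, hT, hR⟩ := ramsey_kernel E n m
  have htri := tri_injective
  choose k h hinj hodd hker using fun i => hR (Φ i)
  have hbtinj : ∀ i, Function.Injective (bt m (h i)) := fun i =>
    bt_injective (hinj i) fun z => (hodd i z).2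
  have hbtfix : ∀ i, (fun j => Ac E X (bt m (h i)) (y j)) = y := fun i => funext fun j =>
    hm _ (hbtinj i) (fun n hn => if_pos hn) j
  -- general facts about `3 f u` for an operation `f` and an injection `u`
  let cd : Op Ω n → (ℕ → ℕ) → (Fin (n + 1) → Ω) → Cod K d := fun f u t =>
    cmap tri (E.s (f fun j => E.act u (t j)))
  have hcdD : ∀ f u t, cd f u t ∈ E.D := fun f u t => E.D_act _ (E.s_mem _) _ htri
  have hcdpt : ∀ f u, (fun t => E.pt (cd f u t)) = fun t => E.act tri (f fun j => E.act u (t j)) :=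
    fun f u => rfl
  have hcdmem : ∀ f ∈ C.ops n, ∀ u : ℕ → ℕ, Function.Injective u →
      (fun t => E.pt (cd f u t)) ∈ C.ops n := fun f hf u hu => by
    rw [hcdpt]
    exact S.post_mem (S.subst_mem hf hu) htri
  have hcdX : ∀ f ∈ C.ops n, ∀ u : ℕ → ℕ, Function.Injective u →
      (fun j => Ac E X u (y j)) = y → X n (fun t => E.pt (cd f u t)) y =
        Ac E X tri (X n f y) := fun f hf u hu hy => by
    rw [hcdpt, S.X_post (S.subst_mem hf hu) htri, S.X_subst hf hu, hy]
  obtain ⟨c, hc⟩ := eventually_const_finite W k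
  obtain ⟨i0, hi0⟩ := hc.exists
  let c0 : (Fin (n + 1) → Ω) → Cod K d := cd (Φ i0) (bt m (h i0))
  have hc0 : (fun t => E.pt (c0 t)) ∈ C.ops n := hcdmem _ (hΦ i0) _ (hbtinj i0)
  have hc0D : ∀ t, c0 t ∈ E.D := hcdD _ _
  have hkc : ∀ i, k i = c → SameType (cd (Φ i) (bt m (h i))) c0 := by
    intro i hi
    refine SameType.cmap (hT c _ _ ?_ ?_) htri htri
    · have := hker i
      rw [hi] at this
      exact this
    · have := hker i0
      rw [hi0] at this
      exact this
  let w : Y := X n (fun t => E.pt (c0 t)) y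
  obtain ⟨V, hV⟩ := S.exists_minSup w
  have hVr : ∀ e ∈ V, e ∈ {a | ∃ t x, (c0 t).2 x = some a} := by
    refine S.minSup_sub hV (mod_cinf ?_) fun σ hσ => S.fix_of_range hc0D hc0 y σ hσ
    rintro e ⟨t, x, hx⟩
    exact low_tri _ x e hx
  -- the glued operations
  have hgaminj : ∀ i, Function.Injective (gam m (h i)) := fun i =>
    gam_injective (hinj i) (hodd i)
  obtain ⟨G, hG1, hG2, hG3, hG4, hG5⟩ := exists_limit W (fun i => cd (Φ i) (gam m (h i)))
  obtain ⟨hGD, hg⟩ := S.limit_mem (fun i t => hcdD (Φ i) (gam m (h i)) t)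
    (fun i => hcdmem _ (hΦ i) _ (hgaminj i)) hG5
  let g : Op Ω n := fun t => E.pt (G t)
  let GP : (Fin (n + 1) → Ω) → Cod K d := fun t => G (fun j => E.act (jP m) (t j))
  let GQ : (Fin (n + 1) → Ω) → Cod K d := fun t => G (fun j => E.act (jQ m) (t j))
  have hGPmem : (fun t => E.pt (GP t)) ∈ C.ops n := S.subst_mem hg (jP_injective m)
  have hGQmem : (fun t => E.pt (GQ t)) ∈ C.ops n := S.subst_mem hg (jQ_injective m)
  have hPy : (fun j => Ac E X (jP m) (y j)) = y := funext fun j =>
    hm _ (jP_injective m) (fun n hn => if_pos hn) j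
  have hQy : (fun j => Ac E X (jQ m) (y j)) = y := funext fun j =>
    hm _ (jQ_injective m) (fun n hn => if_pos hn) j
  have hGPX : X n (fun t => E.pt (GP t)) y = X n g y := by
    have h1 := S.X_subst hg (jP_injective m) y
    rw [hPy] at h1
    exact h1
  have hGQX : X n (fun t => E.pt (GQ t)) y = X n g y := by
    have h1 := S.X_subst hg (jQ_injective m) y
    rw [hQy] at h1
    exact h1
  have hcdQ : ∀ (i : ι) (t : Fin (n + 1) → Ω),
      cd (Φ i) (gam m (h i)) (fun j => E.act (jQ m) (t j)) = cd (Φ i) (bt m (h i)) t := by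
    intro i t
    show cmap tri (E.s (Φ i _)) = cmap tri (E.s (Φ i _))
    congr 3
    funext j
    rw [← E.act_comp (hgaminj i) (jQ_injective m), gam_jQ]
  have hcdP : ∀ (i : ι) (t : Fin (n + 1) → Ω),
      cd (Φ i) (gam m (h i)) (fun j => E.act (jP m) (t j)) = cd (Φ i) (jP m) t := by
    intro i t
    show cmap tri (E.s (Φ i _)) = cmap tri (E.s (Φ i _))
    congr 3
    funext j
    rw [← E.act_comp (hgaminj i) (jP_injective m), gam_jP]
  have hGQty : SameType GQ c0 := by
    refine ⟨fun t => ?_, fun t x t' x' => ?_, fun t x => ?_⟩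
    · obtain ⟨i, hi1, hi2⟩ := ((hG1 (fun j => E.act (jQ m) (t j))).and hc).exists
      rw [hcdQ] at hi1
      exact hi1.symm.trans ((hkc i hi2).cls t)
    · show (G _).2 x = (G _).2 x' ↔ _
      rw [hG2]
      constructor
      · intro h1
        obtain ⟨i, hi1, hi2⟩ := (h1.and hc).exists
        rw [hcdQ, hcdQ] at hi1
        exact ((hkc i hi2).eq t x t' x').1 hi1
      · intro h1
        refine hc.mono fun i hi => ?_
        rw [hcdQ, hcdQ]
        exact ((hkc i hi).eq t x t' x').2 h1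
    · show (G _).2 x = none ↔ _
      rw [hG3]
      constructor
      · intro h1
        obtain ⟨i, hi1, hi2⟩ := (h1.and hc).exists
        rw [hcdQ] at hi1
        exact ((hkc i hi2).none t x).1 hi1
      · intro h1
        refine hc.mono fun i hi => ?_
        rw [hcdQ]
        exact ((hkc i hi).none t x).2 h1
  obtain ⟨α, hα, hαc, -⟩ := exists_factor hGQty (fun t => hG4 _)
  have hαw : Ac E X α w = X n g y := by
    rw [← hGQX, ← S.X_post hc0 hα]
    congr 1
    funext t
    rw [E.act_pt (hc0D t) hα, hαc t]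
  have hVP : ∀ e ∈ V, α e ∈ {a | ∃ t x, (GP t).2 x = some a} := by
    refine S.minSup_sub_image hV hα (mod_cinf ?_) ?_
    · rintro e ⟨t, x, hx⟩
      exact hG4 _ x e hx
    · intro σ hσ
      rw [hαw, ← hGPX]
      exact S.fix_of_range (fun t => hGD _) hGPmem y σ hσ
  -- the other side of the glued operation comes from `f`
  let fP : (Fin (n + 1) → Ω) → Cod K d := fun t => E.s (f (fun j => E.act (jP m) (t j)))
  have hfPD : ∀ t, fP t ∈ E.D := fun t => E.s_mem _
  have hfPpt : (fun t => E.pt (fP t)) = fun t => f (fun j => E.act (jP m) (t j)) :=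
    funext fun t => E.pt_s _
  have hfP : (fun t => E.pt (fP t)) ∈ C.ops n := by
    rw [hfPpt]
    exact S.subst_mem hf (jP_injective m)
  have hfPX : X n (fun t => E.pt (fP t)) y = X n f y := by
    rw [hfPpt]
    have h1 := S.X_subst hf (jP_injective m) y
    rw [hPy] at h1
    exact h1
  have hlimP : ∀ t, ∀ᶠ i in (W : Filter ι),
      cd (Φ i) (gam m (h i)) (fun j => E.act (jP m) (t j)) = cmap tri (fP t) := by
    intro t
    refine (hlim (fun j => E.act (jP m) (t j))).mono fun i hi => ?_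
    rw [hcdP]
    show cmap tri (E.s (Φ i _)) = _
    rw [hi]
  have hGPty : SameType GP fP := by
    refine ⟨fun t => ?_, fun t x t' x' => ?_, fun t x => ?_⟩
    · obtain ⟨i, hi1, hi2⟩ := ((hG1 (fun j => E.act (jP m) (t j))).and (hlimP t)).exists
      rw [hi2] at hi1
      exact hi1.symm
    · show (G _).2 x = (G _).2 x' ↔ _
      rw [hG2]
      have h0 : ((cmap tri (fP t)).2 x = (cmap tri (fP t')).2 x') ↔
          (fP t).2 x = (fP t').2 x' := (Option.map_injective htri).eq_iff
      rw [← h0]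
      constructor
      · intro h1
        obtain ⟨i, hi1, hi2, hi3⟩ := (h1.and ((hlimP t).and (hlimP t'))).exists
        rw [hi2, hi3] at hi1
        exact hi1
      · intro h1
        refine ((hlimP t).and (hlimP t')).mono fun i hi => ?_
        rw [hi.1, hi.2]
        exact h1
    · show (G _).2 x = none ↔ _
      rw [hG3]
      have h0 : ((cmap tri (fP t)).2 x = none) ↔ (fP t).2 x = none := Option.map_eq_none_iff
      rw [← h0]
      constructor
      · intro h1
        obtain ⟨i, hi1, hi2⟩ := (h1.and (hlimP t)).exists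
        rw [hi2] at hi1
        exact hi1
      · intro h1
        refine (hlimP t).mono fun i hi => ?_
        rw [hi]
        exact h1
  obtain ⟨β, hβ, hβf, -⟩ := exists_factor hGPty (fun t => hG4 _)
  have hβw : Ac E X β (X n f y) = X n g y := by
    rw [← hGPX, ← hfPX, ← S.X_post hfP hβ]
    congr 1
    funext t
    rw [E.act_pt (hfPD t) hβ, hβf t]
  -- values
  have hb : ∀ e : V, ∃ (e' : ℕ) (te : Fin (n + 1) → Ω) (xe : Fin d), α e = β e' ∧
      (c0 te).2 xe = some (e : ℕ) ∧
      ∀ᶠ i in (W : Filter ι), (cd (Φ i) (bt m (h i)) te).2 xe = some (tri e') := by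
    rintro ⟨e, he⟩
    obtain ⟨te, xe, hte⟩ := hVr e he
    obtain ⟨t', x', ht'⟩ := hVP e he
    obtain ⟨e', he'⟩ : ∃ e', (fP t').2 x' = some e' := by
      rcases h1 : (fP t').2 x' with _ | e'
      · rw [(hGPty.none t' x').2 h1] at ht'
        exact absurd ht' (by simp)
      · exact ⟨e', rfl⟩
    have h2 : (GP t').2 x' = some (β e') := by
      rw [← hβf t']
      show ((fP t').2 x').map β = _
      rw [he']
      rfl
    have h3 : (GQ te).2 xe = some (α e) := by
      rw [← hαc te]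
      show ((c0 te).2 xe).map α = _
      rw [hte]
      rfl
    refine ⟨e', te, xe, ?_, hte, ?_⟩
    · rw [h2] at ht'
      exact (Option.some.inj ht').symm
    · have h4 : (G (fun j => E.act (jP m) (t' j))).2 x' =
          (G (fun j => E.act (jQ m) (te j))).2 xe := ht'.trans h3.symm
      rw [hG2] at h4
      refine (h4.and (hlimP t')).mono ?_
      rintro i ⟨hi1, hi2⟩
      rw [hi2, hcdQ] at hi1
      rw [← hi1]
      show ((fP t').2 x').map tri = _
      rw [he']
      rfl
  choose b te xe hb using hb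
  have hall : ∀ᶠ i in (W : Filter ι), k i = c ∧
      ∀ e : V, (cd (Φ i) (bt m (h i)) (te e)).2 (xe e) = some (tri (b e)) := by
    refine hc.and ?_
    rw [Filter.eventually_all]
    exact fun e => (hb e).2.2
  refine hall.mono ?_
  rintro i ⟨hic, hib⟩
  refine S.Ac_injective htri ?_
  obtain ⟨π, hπ, hπc, -⟩ := exists_factor (hkc i hic) (fun t => low_tri _)
  have e1 : Ac E X tri (X n (Φ i) y) = Ac E X π w := by
    rw [← hcdX _ (hΦ i) _ (hbtinj i) (hbtfix i), ← S.X_post hc0 hπ]
    congr 1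
    funext t
    rw [E.act_pt (hc0D t) hπ, hπc t]
  -- invert `β` on a finite set
  obtain ⟨H, hH⟩ := S.exists_sup (X n f y)
  obtain ⟨σ, hσ⟩ := perm_ext (H ∪ Finset.univ.image b) β hβ.injOn
  have e2 : Ac E X β (X n f y) = Ac E X σ (X n f y) := hH _ _ hβ σ.injective fun z hz =>
    (hσ z (Finset.mem_union_left _ hz)).symm
  have e3 : X n f y = Ac E X (σ.symm : Equiv.Perm ℕ) (Ac E X α w) := by
    rw [hαw, ← hβw, e2, S.Ac_symm]
  rw [e1, e3, ← S.Ac_comp σ.symm.injective hα,
    ← S.Ac_comp htri (σ.symm.injective.comp hα)]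
  refine hV.1 _ _ hπ (htri.comp (σ.symm.injective.comp hα)) fun e he => ?_
  show π e = tri (σ.symm (α e))
  rw [(hb ⟨e, he⟩).1, ← hσ _ (Finset.mem_union_right _
    (Finset.mem_image_of_mem _ (Finset.mem_univ _))), Equiv.symm_apply_apply]
  have h5 : ((c0 (te ⟨e, he⟩)).2 (xe ⟨e, he⟩)).map π = some (tri (b ⟨e, he⟩)) := by
    rw [← hib ⟨e, he⟩, ← hπc]
    rfl
  rw [(hb ⟨e, he⟩).2.1] at h5
  exact Option.some.inj h5

/-- boundedness for the inverse -/
theorem inv_bounded [Finite K] (S : Setup E C D X) {n : ℕ} {ι : Type*}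
    (W : Ultrafilter ι) (Φ : ι → Op Ω n) (hΦ : ∀ i, Φ i ∈ C.ops n)
    (hX : ∀ y, ∃ z, ∀ᶠ i in (W : Filter ι), X n (Φ i) y = z) (t0 : Fin (n + 1) → Ω) :
    ∃ b, ∀ᶠ i in (W : Filter ι), Φ i t0 = b := by
  classical
  have hcount : Countable Ω := E.countable_of
  choose z hz using hX
  have hpt : ∀ i, (fun t => E.pt (E.s (Φ i t))) = Φ i := fun i => funext fun t => E.pt_s _
  obtain ⟨G, hG1, hG2, hG3, hG4, hG5⟩ := exists_limit W (fun i t => E.s (Φ i t))
  obtain ⟨hGD, hg⟩ := S.limit_mem (fun i t => E.s_mem (Φ i t))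
    (fun i => by rw [hpt i]; exact hΦ i) hG5
  -- some coordinate of the code is not constant
  by_contra hcon
  push Not at hcon
  obtain ⟨x0, hx0⟩ : ∃ x, ¬ ∃ o, ∀ᶠ i in (W : Filter ι), (E.s (Φ i t0)).2 x = o := by
    by_contra hall
    push Not at hall
    choose o ho using hall
    obtain ⟨i, hi1, hi2, hi3⟩ := ((hG1 t0).and ((Filter.eventually_all.2 ho).and
      (hcon (E.pt ((G t0).1, o))))).exists
    apply hi3
    rw [← E.pt_s (Φ i t0)]
    congr 1
    exact Prod.ext hi1 (funext fun x => hi2 x)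
  have hx0' : ∀ o, ∀ᶠ i in (W : Filter ι), (E.s (Φ i t0)).2 x0 ≠ o := fun o =>
    Ultrafilter.eventually_not.2 fun h => hx0 ⟨o, h⟩
  have hne : ∀ b : ℕ, ∀ᶠ i in (W : Filter ι), (E.s (Φ i t0)).2 x0 ≠ some b := fun b =>
    hx0' (some b)
  obtain ⟨e, he⟩ : ∃ e, (G t0).2 x0 = some e := by
    rcases h : (G t0).2 x0 with _ | e
    · obtain ⟨i, hi1, hi2⟩ := (((hG3 t0 x0).1 h).and (hx0' none)).exists
      exact absurd hi1 hi2
    · exact ⟨e, rfl⟩
  have he3 : e % 3 = 0 := hG4 t0 x0 e he
  let ρ : ℕ → ℕ := fun z => if z = e then 1 else if z % 3 = 0 then z else 3 * z + 2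
  have hρe : ρ e = 1 := if_pos rfl
  have hρ3 : ∀ z, z ≠ e → z % 3 = 0 → ρ z = z := fun z h1 h2 => by
    show (if z = e then 1 else if z % 3 = 0 then z else 3 * z + 2) = z
    rw [if_neg h1, if_pos h2]
  have hρ : Function.Injective ρ := by
    intro a b hab
    simp only [ρ] at hab
    split_ifs at hab <;> omega
  let g : Op Ω n := fun t => E.pt (G t)
  let g' : Op Ω n := fun t => E.act ρ (g t)
  have hg' : g' ∈ C.ops n := S.post_mem hg hρ
  have hgg : g ≠ g' := by
    intro h
    have h1 : E.pt (cmap ρ (G t0)) ≠ E.pt (G t0) := by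
      refine E.min _ (hGD t0) x0 e ρ hρ he fun x' hx' => ?_
      rw [hρe] at hx'
      have := hG4 t0 x' 1 hx'
      omega
    apply h1
    rw [← E.act_pt (hGD t0) hρ]
    exact (congrFun h t0).symm
  -- good boxes
  obtain ⟨enc, henc⟩ := exists_injective_nat (Fin (n + 1) → Ω)
  have hfinN : ∀ N, {t | enc t ≤ N}.Finite := fun N =>
    Set.Finite.preimage henc.injOn (Set.finite_Iic N)
  let Good : ι → ℕ → Prop := fun i N => ∀ t, enc t ≤ N → (E.s (Φ i t)).1 = (G t).1 ∧
    (∀ x, ((E.s (Φ i t)).2 x = none ↔ (G t).2 x = none)) ∧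
    ∀ t', enc t' ≤ N → ∀ x x', ((E.s (Φ i t)).2 x = (E.s (Φ i t')).2 x' ↔
      (G t).2 x = (G t').2 x')
  have hGood : ∀ N, ∀ᶠ i in (W : Filter ι), Good i N := by
    intro N
    have h1 : ∀ᶠ i in (W : Filter ι), ∀ t ∈ (hfinN N).toFinset,
        (E.s (Φ i t)).1 = (G t).1 ∧
        (∀ x, ((E.s (Φ i t)).2 x = none ↔ (G t).2 x = none)) ∧
        ∀ t' ∈ (hfinN N).toFinset, ∀ x x', ((E.s (Φ i t)).2 x = (E.s (Φ i t')).2 x' ↔
          (G t).2 x = (G t').2 x') := by
      rw [Filter.eventually_all_finset]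
      intro t _
      refine (hG1 t).and (Filter.Eventually.and ?_ ?_)
      · rw [Filter.eventually_all]
        exact fun x => eventually_iff W (hG3 t x)
      · rw [Filter.eventually_all_finset]
        intro t' _
        rw [Filter.eventually_all]
        intro x
        rw [Filter.eventually_all]
        exact fun x' => eventually_iff W (hG2 t x t' x')
    refine h1.mono fun i hi t ht => ?_
    have h2 := hi t ((hfinN N).mem_toFinset.2 ht)
    exact ⟨h2.1, h2.2.1, fun t' ht' => h2.2.2 t' ((hfinN N).mem_toFinset.2 ht')⟩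
  have hfac : ∀ i, ∃ σ : ℕ → ℕ, Function.Injective σ ∧
      (∀ t, Good i (enc t) → cmap σ (E.s (Φ i t)) = G t) ∧ ∀ x, σ x ≠ 1 := by
    intro i
    obtain ⟨σ, hσ, hσ1, hσ2⟩ := exists_factor (T := {t // Good i (enc t)})
      (p := fun t => G t.1) (q := fun t => E.s (Φ i t.1)) (by
        refine ⟨fun t => ((t.2 t.1 le_rfl).1).symm, ?_, fun t x =>
          ((t.2 t.1 le_rfl).2.1 x).symm⟩
        rintro ⟨t, ht⟩ x ⟨t', ht'⟩ x'
        rcases le_total (enc t) (enc t') with hle | hle
        · exact ((ht' t hle).2.2 t' le_rfl x x').symm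
        · exact ((ht t le_rfl).2.2 t' hle x x').symm)
      (fun t => hG4 t.1)
    refine ⟨σ, hσ, fun t ht => hσ1 ⟨t, ht⟩, fun x hx => ?_⟩
    rcases hσ2 x with ⟨t, x', ht⟩ | h
    · have := hG4 t.1 x' _ ht
      omega
    · omega
  choose σ hσ hσG hσ1 using hfac
  let σ' : ι → ℕ → ℕ := fun i z => if (E.s (Φ i t0)).2 x0 = some z then 1 else σ i z
  have hσ'1 : ∀ i z, (E.s (Φ i t0)).2 x0 = some z → σ' i z = 1 := fun i z h => if_pos h
  have hσ'2 : ∀ i z, (E.s (Φ i t0)).2 x0 ≠ some z → σ' i z = σ i z := fun i z h => if_neg h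
  have hσ' : ∀ i, Function.Injective (σ' i) := by
    intro i a b h
    by_cases ha : (E.s (Φ i t0)).2 x0 = some a <;> by_cases hb : (E.s (Φ i t0)).2 x0 = some b
    · exact Option.some.inj (ha.symm.trans hb)
    · rw [hσ'1 i a ha, hσ'2 i b hb] at h
      exact absurd h.symm (hσ1 i b)
    · rw [hσ'2 i a ha, hσ'1 i b hb] at h
      exact absurd h (hσ1 i a)
    · rw [hσ'2 i a ha, hσ'2 i b hb] at h
      exact hσ i h
  have hcode : ∀ i t, Good i (enc t) → Good i (enc t0) →
      cmap (σ' i) (E.s (Φ i t)) = cmap ρ (G t) := by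
    intro i t ht ht0
    have hGt := hσG i t ht
    have hGt0 := hσG i t0 ht0
    refine Prod.ext (ht t le_rfl).1 (funext fun x => ?_)
    show ((E.s (Φ i t)).2 x).map (σ' i) = ((G t).2 x).map ρ
    rw [← hGt]
    show _ = (((E.s (Φ i t)).2 x).map (σ i)).map ρ
    rcases hx : (E.s (Φ i t)).2 x with _ | z
    · rfl
    · show some (σ' i z) = some (ρ (σ i z))
      have h3 : (G t).2 x = some (σ i z) := by
        rw [← hGt]
        show ((E.s (Φ i t)).2 x).map (σ i) = _
        rw [hx]
        rfl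
      have h3' : σ i z % 3 = 0 := hG4 t x _ h3
      have h4 : ((E.s (Φ i t0)).2 x0).map (σ i) = some e := by
        have : (cmap (σ i) (E.s (Φ i t0))).2 x0 = some e := by rw [hGt0, he]
        exact this
      by_cases hz : (E.s (Φ i t0)).2 x0 = some z
      · rw [hσ'1 i z hz]
        rw [hz] at h4
        have h5 : σ i z = e := Option.some.inj h4
        rw [h5, hρe]
      · rw [hσ'2 i z hz, hρ3 _ ?_ h3']
        intro h5
        apply hz
        rw [Option.map_eq_some_iff] at h4
        obtain ⟨a, ha1, ha2⟩ := h4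
        rw [ha1]
        congr 1
        exact hσ i (ha2.trans h5.symm)
  have key1 : ∀ y, ∀ᶠ i in (W : Filter ι), Ac E X (σ i) (X n (Φ i) y) = X n g y := by
    intro y
    have h1 := S.limit_forward W (fun i t => E.act (σ i) (Φ i t))
      (fun i => S.post_mem (hΦ i) (hσ i)) hg (fun t =>
        (hGood (enc t)).mono fun i hi => by
          show E.pt (cmap (σ i) (E.s (Φ i t))) = E.pt (G t)
          rw [hσG i t hi]) y
    refine h1.mono fun i hi => ?_
    rw [← S.X_post (hΦ i) (hσ i)]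
    exact hi
  have key2 : ∀ y, ∀ᶠ i in (W : Filter ι), Ac E X (σ' i) (X n (Φ i) y) = X n g' y := by
    intro y
    have h1 := S.limit_forward W (fun i t => E.act (σ' i) (Φ i t))
      (fun i => S.post_mem (hΦ i) (hσ' i)) hg' (fun t =>
        ((hGood (enc t)).and (hGood (enc t0))).mono fun i hi => by
          show E.pt (cmap (σ' i) (E.s (Φ i t))) = E.act ρ (E.pt (G t))
          rw [hcode i t hi.1 hi.2, E.act_pt (hGD t) hρ]) y
    refine h1.mono fun i hi => ?_
    rw [← S.X_post (hΦ i) (hσ' i)]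
    exact hi
  have hXX : X n g = X n g' := by
    funext y
    obtain ⟨V, hV⟩ := S.exists_sup (z y)
    have hV' : ∀ᶠ i in (W : Filter ι), ∀ b ∈ V, (E.s (Φ i t0)).2 x0 ≠ some b := by
      rw [Filter.eventually_all_finset]
      exact fun b _ => hne b
    obtain ⟨i, h1, h2, h3, h4⟩ := ((key1 y).and ((key2 y).and ((hz y).and hV'))).exists
    rw [← h1, ← h2, h3]
    exact hV _ _ (hσ i) (hσ' i) fun b hb => (hσ'2 i b (h4 b hb)).symm
  exact hgg (S.inj n _ _ hg hg' hXX)

/-- the inverse respects limits along ultrafilters. -/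
theorem limit_backward [Finite K] (S : Setup E C D X) {n : ℕ} {ι : Type*}
    (W : Ultrafilter ι) (Φ : ι → Op Ω n) (hΦ : ∀ i, Φ i ∈ C.ops n) {f : Op Ω n}
    (hf : f ∈ C.ops n) (hlim : ∀ y, ∀ᶠ i in (W : Filter ι), X n (Φ i) y = X n f y)
    (t : Fin (n + 1) → Ω) : ∀ᶠ i in (W : Filter ι), Φ i t = f t := by
  choose b hb using S.inv_bounded W Φ hΦ fun y => ⟨_, hlim y⟩
  have hbC : (b : Op Ω n) ∈ C.ops n := by
    refine S.closedC n b fun T => ?_
    have h1 : ∀ᶠ i in (W : Filter ι), ∀ t ∈ T, Φ i t = b t := by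
      rw [Filter.eventually_all_finset]
      exact fun t _ => hb t
    obtain ⟨i, hi⟩ := h1.exists
    exact ⟨Φ i, hΦ i, hi⟩
  have hbf : b = f := S.inj n _ _ hbC hf (by
    funext y
    obtain ⟨i, hi1, hi2⟩ := ((S.limit_forward W Φ hΦ hbC hb y).and (hlim y)).exists
    rw [← hi1, ← hi2])
  rw [← hbf]
  exact hb t

end Setup

end Pool.Agent.KS6_94.AI
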