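import Mathlib
import Pool.Agent.KS6_94.AI.Main
import Pool.Agent.KS6_94.AI.Action

set_option autoImplicit false
set_option linter.unusedVariables false

open Filter Topology

namespace Pool.Agent.KS6_94.AI

universe u v

/-- members of closed sets of functions to a discrete space by finite approximation. -/
lemma closed_approx {Ω : Type u} [TopologicalSpace Ω] [DiscreteTopology Ω] {ι : Type*}
    {S : Set (ι → Ω)} (hS : IsClosed S) (f : ι → Ω)
    (h : ∀ T : Finset ι, ∃ g ∈ S, ∀ t ∈ T, g t = f t) : f ∈ S := by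
  rw [← hS.closure_eq, mem_closure_iff]
  intro o ho hf
  obtain ⟨I, u, hI, hsub⟩ := isOpen_pi_iff.1 ho f hf
  obtain ⟨g, hg, hgf⟩ := h I
  refine ⟨g, hsub ?_, hg⟩
  intro i hi
  rw [hgf i hi]
  exact (hI i hi).2

/-- the isomorphism as a map on raw operations -/
noncomputable def toX {Ω : Type v} {Y : Type u} {C : Clone Ω} {D : Clone Y}
    (ξ : CloneIso C D) : ∀ n, Op Ω n → Op Y n := by
  classical
  exact fun n f => if h : f ∈ C.ops n then (ξ.map n ⟨f, h⟩ : Op Y n) else fun y => y 0

lemma toX_of_mem {Ω : Type v} {Y : Type u} {C : Clone Ω} {D : Clone Y} (ξ : CloneIso C D)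
    {n : ℕ} {f : Op Ω n} (h : f ∈ C.ops n) : toX ξ n f = (ξ.map n ⟨f, h⟩ : Op Y n) := by
  classical
  unfold toX
  exact dif_pos h

theorem setup_of_iso {K : Type} {d : ℕ} {Ω : Type v} {Y : Type u} [TopologicalSpace Ω]
    [DiscreteTopology Ω] [TopologicalSpace Y] [DiscreteTopology Y] (E : Dom Ω K d)
    {C : Clone Ω} {D : Clone Y} (hC : ∀ n, IsClosed (C.ops n)) (hD : ∀ n, IsClosed (D.ops n))
    (hY : Cardinal.mk Y < Cardinal.continuum)
    (hS : ∀ σ : Equiv.Perm ℕ, (fun x : Fin 1 → Ω => E.act σ (x 0)) ∈ C.ops 0)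
    (ξ : CloneIso C D) : Setup E C D (toX ξ) where
  closedC := fun n f h => closed_approx (hC n) f h
  closedD := fun n f h => closed_approx (hD n) f h
  perm := hS
  small := hY
  mem := by
    intro n f hf
    rw [toX_of_mem ξ hf]
    exact (ξ.map n ⟨f, hf⟩).2
  inj := by
    intro n f g hf hg h
    rw [toX_of_mem ξ hf, toX_of_mem ξ hg] at h
    have := (ξ.bij n).1 (Subtype.ext h)
    exact congrArg Subtype.val this
  surj := by
    intro n g hg
    obtain ⟨⟨f, hf⟩, hfg⟩ := (ξ.bij n).2 ⟨g, hg⟩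
    refine ⟨f, hf, ?_⟩
    rw [toX_of_mem ξ hf, hfg]
  proj := by
    intro n i
    rw [toX_of_mem ξ (C.proj_mem n i)]
    exact ξ.map_proj n i
  comp := by
    intro n m f g hf hg
    rw [toX_of_mem ξ (C.comp_mem n m f g hf hg), toX_of_mem ξ hf]
    have h := ξ.map_comp n m ⟨f, hf⟩ (fun i => ⟨g i, hg i⟩)
    rw [h]
    funext x
    have h2 : (fun i => (ξ.map m ⟨g i, hg i⟩ : Op Y m) x) = fun i => toX ξ m (g i) x :=
      funext fun i => by rw [toX_of_mem ξ (hg i)]
    exact congrArg (ξ.map n ⟨f, hf⟩ : Op Y n) h2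

lemma ops_closed {Ω : Type v} [TopologicalSpace Ω] {C : Clone Ω} (h : IsClosed C.toSet) (n : ℕ) :
    IsClosed (C.ops n) :=
  (isClosed_sigma_iff.1 h) n

/-- the pieces are homeomorphisms. -/
theorem pieces {K : Type} [Finite K] {d : ℕ} {Ω : Type v} {Y : Type u} [TopologicalSpace Ω]
    [DiscreteTopology Ω] [TopologicalSpace Y] [DiscreteTopology Y] (E : Dom Ω K d)
    {C : Clone Ω} {D : Clone Y} (hC : ∀ n, IsClosed (C.ops n)) (hD : ∀ n, IsClosed (D.ops n))
    (hY : Cardinal.mk Y < Cardinal.continuum)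
    (hS : ∀ σ : Equiv.Perm ℕ, (fun x : Fin 1 → Ω => E.act σ (x 0)) ∈ C.ops 0)
    (ξ : CloneIso C D) (n : ℕ) : IsHomeomorph (ξ.map n) := by
  have S := setup_of_iso E hC hD hY hS ξ
  let e := Equiv.ofBijective (ξ.map n) (ξ.bij n)
  have hcont : Continuous (ξ.map n) := by
    rw [continuous_iff_ultrafilter]
    intro x W hW
    rw [tendsto_subtype_rng, tendsto_pi_nhds]
    intro y
    rw [nhds_discrete, tendsto_pure]
    have h1 : ∀ t, ∀ᶠ i : C.ops n in (W : Filter (C.ops n)), (i : Op Ω n) t = (x : Op Ω n) t := by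
      intro t
      have h2 : Tendsto (fun i : C.ops n => (i : Op Ω n) t) (W : Filter (C.ops n))
          (𝓝 ((x : Op Ω n) t)) :=
        (((continuous_apply t).comp continuous_subtype_val).tendsto x).mono_left hW
      rwa [nhds_discrete, tendsto_pure] at h2
    have h3 := S.limit_forward W (fun i : C.ops n => (i : Op Ω n)) (fun i => i.2) x.2 h1 y
    refine h3.mono fun i hi => ?_
    rw [toX_of_mem ξ i.2, toX_of_mem ξ x.2] at hi
    exact hi
  have hinv : Continuous e.symm := by
    rw [continuous_iff_ultrafilter]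
    intro z W hW
    rw [tendsto_subtype_rng, tendsto_pi_nhds]
    intro t
    rw [nhds_discrete, tendsto_pure]
    have he : ∀ d : D.ops n, toX ξ n (e.symm d : Op Ω n) = (d : Op Y n) := by
      intro d
      rw [toX_of_mem ξ (e.symm d).2]
      exact congrArg Subtype.val (e.apply_symm_apply d)
    have h1 : ∀ y, ∀ᶠ d : D.ops n in (W : Filter (D.ops n)),
        toX ξ n (e.symm d : Op Ω n) y = toX ξ n (e.symm z : Op Ω n) y := by
      intro y
      have h2 : Tendsto (fun i : D.ops n => (i : Op Y n) y) (W : Filter (D.ops n))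
          (𝓝 ((z : Op Y n) y)) :=
        (((continuous_apply y).comp continuous_subtype_val).tendsto z).mono_left hW
      rw [nhds_discrete, tendsto_pure] at h2
      refine h2.mono fun d hd => ?_
      rw [he, he, hd]
    exact S.limit_backward W (fun d : D.ops n => (e.symm d : Op Ω n)) (fun d => (e.symm d).2)
      (e.symm z).2 h1 t
  exact (Homeomorph.mk e hcont hinv).isHomeomorph

/-- the disjoint union of the pieces is the clone. -/
def glue {Ω : Type v} (C : Clone Ω) : (Σ n, C.ops n) → C.toSet := fun p => ⟨⟨p.1, p.2.1⟩, p.2.2⟩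

lemma glue_isHomeomorph {Ω : Type v} [TopologicalSpace Ω] (C : Clone Ω) :
    IsHomeomorph (glue C) := by
  rw [isHomeomorph_iff_isEmbedding_surjective]
  constructor
  · have h1 : IsEmbedding (Sigma.map id (fun n => (Subtype.val : C.ops n → Op Ω n))) :=
      (isEmbedding_sigmaMap Function.injective_id).2 fun n => IsEmbedding.subtypeVal
    have h2 : (Sigma.map id (fun n => (Subtype.val : C.ops n → Op Ω n))) =
        (Subtype.val : C.toSet → AllOps Ω) ∘ glue C := rfl
    rw [h2] at h1
    have hcont : Continuous (glue C) := by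
      refine Continuous.subtype_mk ?_ _
      exact continuous_sigma fun n => continuous_sigmaMk.comp continuous_subtype_val
    exact IsEmbedding.of_comp hcont continuous_subtype_val h1
  · rintro ⟨⟨n, f⟩, hf⟩
    exact ⟨⟨n, ⟨f, hf⟩⟩, rfl⟩

theorem total_isHomeomorph {Ω : Type v} {Y : Type u} [TopologicalSpace Ω] [TopologicalSpace Y]
    {C : Clone Ω} {D : Clone Y} (ξ : CloneIso C D) (hp : ∀ n, IsHomeomorph (ξ.map n)) :
    IsHomeomorph ξ.total := by
  have h1 : IsHomeomorph (Sigma.map id ξ.map : (Σ n, C.ops n) → Σ n, D.ops n) :=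
    IsHomeomorph.sigmaMap Function.bijective_id hp
  have h2 : IsHomeomorph (glue D ∘ Sigma.map id ξ.map) := (glue_isHomeomorph D).comp h1
  let H := (glue_isHomeomorph C).homeomorph
  have h3 : ξ.total = (glue D ∘ Sigma.map id ξ.map) ∘ H.symm := by
    funext p
    obtain ⟨q, rfl⟩ := H.surjective p
    rw [Function.comp_apply, H.symm_apply_apply]
    rfl
  rw [h3]
  exact h2.comp H.symm.isHomeomorph

/-- Closed clones that contain a tame action: automatic homeomorphicity for all targets of size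
less than the continuum. -/
theorem automatic {Ω : Type v} [MulAction (Equiv.Perm ℕ) Ω] (hT : Tame Ω) {C : Clone Ω}
    (hC : C.Closed) (hS : ∀ σ : Equiv.Perm ℕ, (fun x : Fin 1 → Ω => σ • x 0) ∈ C.ops 0)
    {Y : Type u} (hY : Cardinal.mk Y < Cardinal.continuum) : AutoHomeo C Y := by
  intro D hD ξ
  let _ : TopologicalSpace Ω := ⊥
  let _ : TopologicalSpace Y := ⊥
  have _ : DiscreteTopology Ω := ⟨rfl⟩
  have _ : DiscreteTopology Y := ⟨rfl⟩
  obtain ⟨N, d, E, hE⟩ := exists_dom hT
  refine total_isHomeomorph ξ (pieces E (ops_closed hC) (ops_closed hD) hY ?_ ξ)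
  intro σ
  have : (fun x : Fin 1 → Ω => E.act σ (x 0)) = fun x => σ • x 0 := funext fun x => hE σ _
  rw [this]
  exact hS σ

end Pool.Agent.KS6_94.AI
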