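import Mathlib
import Pool.Agent.KS6_94.AI.Pos

set_option autoImplicit false
set_option linter.unusedVariables false

open Filter Topology Cardinal

namespace Pool.Agent.KS6_94.AI

universe u

lemma isClosed_of_approx {Ω : Type u} [TopologicalSpace Ω] [DiscreteTopology Ω] {ι : Type*}
    {S : Set (ι → Ω)} (h : ∀ f : ι → Ω, (∀ T : Finset ι, ∃ g ∈ S, ∀ t ∈ T, g t = f t) → f ∈ S) :
    IsClosed S := by
  rw [← closure_subset_iff_isClosed]
  intro f hf
  refine h f fun T => ?_
  have ho : IsOpen {g : ι → Ω | ∀ t ∈ T, g t = f t} := by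
    have h1 : {g : ι → Ω | ∀ t ∈ T, g t = f t} = ⋂ t ∈ T, (fun g : ι → Ω => g t) ⁻¹' {f t} := by
      ext g
      simp
    rw [h1]
    exact isOpen_biInter_finset fun t _ => (isOpen_discrete _).preimage (continuous_apply t)
  obtain ⟨g, hg1, hg2⟩ := mem_closure_iff.1 hf _ ho fun t _ => rfl
  exact ⟨g, hg2, hg1⟩

lemma clone_closed {Ω : Type u} {C : Clone Ω} (h : ∀ n (f : Op Ω n),
    (∀ T : Finset (Fin (n + 1) → Ω), ∃ g ∈ C.ops n, ∀ t ∈ T, g t = f t) → f ∈ C.ops n) :
    C.Closed := by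
  let _ : TopologicalSpace Ω := ⊥
  have _ : DiscreteTopology Ω := ⟨rfl⟩
  show IsClosed C.toSet
  rw [isClosed_sigma_iff]
  intro n
  exact isClosed_of_approx (h n)

section Swaps

variable {Ω : Type} [MulAction (Equiv.Perm ℕ) Ω]

/-- if all swaps act trivially then every finite injection is realised trivially. -/
lemma perm_ext_trivial (hsw : ∀ (a b : ℕ) (ω : Ω), Equiv.swap a b • ω = ω) (T : Finset ℕ)
    (v : ℕ → ℕ) (hv : Set.InjOn v T) :
    ∃ σ : Equiv.Perm ℕ, (∀ t ∈ T, σ t = v t) ∧ ∀ ω : Ω, σ • ω = ω := by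
  classical
  induction T using Finset.induction_on with
  | empty => exact ⟨1, by simp, fun ω => one_smul _ ω⟩
  | insert x T hx ih =>
    obtain ⟨σ, hσ, hσ'⟩ := ih (hv.mono (by simp))
    refine ⟨Equiv.swap (σ x) (v x) * σ, ?_, fun ω => by rw [mul_smul, hσ', hsw]⟩
    intro t ht
    rw [Finset.mem_insert] at ht
    rcases ht with rfl | ht
    · simp
    · rw [Equiv.Perm.mul_apply, hσ t ht]
      apply Equiv.swap_apply_of_ne_of_ne
      · rw [← hσ t ht]
        intro h
        exact hx (σ.injective h ▸ ht)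
      · intro h
        have := hv (by simp [ht]) (by simp) h
        exact hx (this ▸ ht)

/-- in a tame action on an infinite set no finite set of indices kills the action. -/
lemma exists_moving (hT : Tame Ω) [Infinite Ω] (S : Finset ℕ) :
    ∃ (σ : Equiv.Perm ℕ) (ω : Ω), (∀ n ∈ S, σ n = n) ∧ σ • ω ≠ ω := by
  classical
  by_contra hcon
  push Not at hcon
  obtain ⟨a, ha⟩ := Infinite.exists_notMem_finset S
  obtain ⟨b, hb⟩ := Infinite.exists_notMem_finset (insert a S)
  rw [Finset.mem_insert, not_or] at hb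
  have h1 : ∀ ω : Ω, Equiv.swap a b • ω = ω := fun ω => hcon _ ω fun n hn =>
    Equiv.swap_apply_of_ne_of_ne (fun h => ha (h ▸ hn)) (fun h => hb.2 (h ▸ hn))
  have hsw : ∀ (a' b' : ℕ) (ω : Ω), Equiv.swap a' b' • ω = ω := by
    intro a' b' ω
    by_cases hab : a' = b'
    · rw [hab, Equiv.swap_self]
      exact one_smul _ ω
    obtain ⟨ρ, hρ⟩ := perm_ext {a, b} (fun z => if z = a then a' else b') (by
      intro z hz w hw hzw
      simp only [Finset.coe_insert, Finset.coe_singleton, Set.mem_insert_iff,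
        Set.mem_singleton_iff] at hz hw
      rcases hz with rfl | rfl <;> rcases hw with rfl | rfl
      · rfl
      · simp [hb.1, hab] at hzw
      · simp [hb.1, Ne.symm hab] at hzw
      · rfl)
    have h2 : ρ a = a' := by
      have := hρ a (by simp)
      simpa using this
    have h3 : ρ b = b' := by
      have := hρ b (by simp)
      rw [this]
      simp [hb.1]
    have h4 : Equiv.swap a' b' = ρ * Equiv.swap a b * ρ⁻¹ := by
      rw [← h2, ← h3, Equiv.swap_apply_apply]
    rw [h4, mul_smul, mul_smul, h1, smul_inv_smul]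
  have htriv : ∀ (σ : Equiv.Perm ℕ) (ω : Ω), σ • ω = ω := by
    intro σ ω
    obtain ⟨A, hA⟩ := hT.finite_support ω
    obtain ⟨τ, hτ, hτ'⟩ := perm_ext_trivial hsw A σ σ.injective.injOn
    rw [← (show Supports A ω from hA).congr (fun n hn => hτ n hn), hτ']
  obtain ⟨R, hR, hRorb⟩ := hT.finite_orbits
  refine Set.infinite_univ (α := Ω) (hR.subset fun ω _ => ?_)
  obtain ⟨r, hr, σ, hσ⟩ := hRorb ω
  rw [htriv] at hσ
  exact hσ ▸ hr

end Swaps

section Free

variable {Ω : Type} (C : Clone Ω) (Λ : Type u)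

/-- the functions in the variables `Λ` that depend on finitely many variables and belong to
the clone. -/
def FreeAlg : Set ((Λ → Ω) → Ω) :=
  {g | (∃ L : List Λ, ∀ a b : Λ → Ω, (∀ l ∈ L, a l = b l) → g a = g b) ∧
    ∀ (n : ℕ) (κ : Λ → Fin (n + 1)), (fun x : Fin (n + 1) → Ω => g (fun l => x (κ l))) ∈ C.ops n}

lemma gen_mem (l : Λ) : (fun a : Λ → Ω => a l) ∈ FreeAlg C Λ :=
  ⟨⟨[l], fun a b h => h l (by simp)⟩, fun n κ => C.proj_mem n (κ l)⟩

lemma op_mem {n : ℕ} {f : Op Ω n} (hf : f ∈ C.ops n) {g : Fin (n + 1) → (Λ → Ω) → Ω}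
    (hg : ∀ i, g i ∈ FreeAlg C Λ) : (fun a => f (fun i => g i a)) ∈ FreeAlg C Λ := by
  refine ⟨?_, fun m κ => C.comp_mem n m f (fun i x => g i (fun l => x (κ l))) hf
    fun i => (hg i).2 m κ⟩
  choose L hL using fun i => (hg i).1
  refine ⟨(List.ofFn L).flatten, fun a b h => ?_⟩
  show f (fun i => g i a) = f (fun i => g i b)
  congr 1
  funext i
  refine hL i a b fun l hl => h l ?_
  rw [List.mem_flatten]
  exact ⟨L i, List.mem_ofFn.2 ⟨i, rfl⟩, hl⟩

lemma mk_freeAlg [Countable Ω] [Nontrivial Ω] (hΛ : 𝔠 ≤ #Λ) : #(FreeAlg C Λ) = #Λ := by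
  classical
  have _ : Infinite Λ := by
    rw [Cardinal.infinite_iff]
    exact Cardinal.aleph0_le_continuum.trans hΛ
  apply le_antisymm
  · obtain ⟨ω0⟩ : Nonempty Ω := inferInstance
    choose L hL using fun g : FreeAlg C Λ => g.2.1
    let φ : FreeAlg C Λ → List Λ × (List Ω → Ω) := fun g =>
      (L g, fun x => g.1 (fun l => x.getD ((L g).idxOf l) ω0))
    have hφ : Function.Injective φ := by
      intro g g' h
      have h1 : L g = L g' := congrArg Prod.fst h
      have h2 := congrArg Prod.snd h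
      apply Subtype.ext
      funext a
      have key : ∀ l ∈ L g, ((L g).map a).getD ((L g).idxOf l) ω0 = a l := by
        intro l hl
        have h3 : (L g).idxOf l < (L g).length := List.idxOf_lt_length_iff.2 hl
        rw [List.getD_eq_getElem _ _ (by rw [List.length_map]; exact h3), List.getElem_map,
          List.getElem_idxOf]
      have h3 : g.1 a = g.1 (fun l => ((L g).map a).getD ((L g).idxOf l) ω0) :=
        hL g _ _ fun l hl => (key l hl).symm
      have h4 : g'.1 a = g'.1 (fun l => ((L g).map a).getD ((L g).idxOf l) ω0) :=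
        hL g' _ _ fun l hl => (key l (h1 ▸ hl)).symm
      rw [h3, h4]
      have h5 := congrFun h2 ((L g).map a)
      show g.1 _ = g'.1 _
      have h6 : g'.1 (fun l => ((L g).map a).getD ((L g).idxOf l) ω0) =
          g'.1 (fun l => ((L g).map a).getD ((L g').idxOf l) ω0) := by rw [h1]
      rw [h6]
      exact h5
    refine (Cardinal.mk_le_of_injective hφ).trans ?_
    rw [Cardinal.mk_prod, Cardinal.mk_list_eq_mk]
    have h1 : #(List Ω → Ω) ≤ 𝔠 := by
      rw [← Cardinal.power_def]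
      calc #Ω ^ #(List Ω) ≤ ℵ₀ ^ #(List Ω) :=
            Cardinal.power_le_power_right Cardinal.mk_le_aleph0
        _ ≤ ℵ₀ ^ ℵ₀ := Cardinal.power_le_power_left Cardinal.aleph0_ne_zero Cardinal.mk_le_aleph0
        _ = 𝔠 := Cardinal.aleph0_power_aleph0
    have h2 : Cardinal.lift.{u} #(List Ω → Ω) ≤ 𝔠 := by
      rw [← Cardinal.lift_continuum.{u, 0}]
      exact Cardinal.lift_le.2 h1
    rw [Cardinal.lift_uzero]
    calc #Λ * Cardinal.lift.{u} #(List Ω → Ω) ≤ #Λ * #Λ := mul_le_mul_right (h2.trans hΛ) _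
      _ = #Λ := Cardinal.mul_eq_self (Cardinal.aleph0_le_continuum.trans hΛ)
  · obtain ⟨ω0, ω1, h01⟩ := exists_pair_ne Ω
    refine Cardinal.mk_le_of_injective (f := fun l : Λ =>
      (⟨fun a => a l, gen_mem C Λ l⟩ : FreeAlg C Λ)) ?_
    intro l l' h
    by_contra hne
    have h1 := congrFun (congrArg Subtype.val h) (fun z => if z = l then ω0 else ω1)
    simp only [if_true] at h1
    rw [if_neg (Ne.symm hne)] at h1
    exact h01 h1

end Free

/-- Failure of automatic homeomorphicity for all targets of size at least the continuum. -/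
theorem not_autoHomeo {Ω : Type} [MulAction (Equiv.Perm ℕ) Ω] (hT : Tame Ω) [Infinite Ω]
    {C : Clone Ω} (hS : ∀ σ : Equiv.Perm ℕ, (fun x : Fin 1 → Ω => σ • x 0) ∈ C.ops 0)
    {Y : Type u} (hY : 𝔠 ≤ #Y) : ¬ AutoHomeo C Y := by
  classical
  intro hauto
  let _ : TopologicalSpace Ω := ⊥
  let _ : TopologicalSpace Y := ⊥
  have _ : DiscreteTopology Ω := ⟨rfl⟩
  have _ : DiscreteTopology Y := ⟨rfl⟩
  have _ : Infinite Y := by
    rw [Cardinal.infinite_iff]
    exact Cardinal.aleph0_le_continuum.trans hY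
  obtain ⟨N, d, E, hE⟩ := exists_dom hT
  have _ : Countable Ω := E.countable_of
  obtain ⟨e⟩ := Cardinal.eq.1 (mk_freeAlg C Y hY)
  let ev : Y → (Y → Ω) → Ω := fun y => (e.symm y).1
  have hev : ∀ y y', ev y = ev y' → y = y' := fun y y' h => e.symm.injective (Subtype.ext h)
  have hevmem : ∀ y, ev y ∈ FreeAlg C Y := fun y => (e.symm y).2
  have hevsurj : ∀ g ∈ FreeAlg C Y, ∃ y, ev y = g := fun g hg => ⟨e ⟨g, hg⟩, by
    show (e.symm (e ⟨g, hg⟩)).1 = g
    rw [Equiv.symm_apply_apply]⟩
  -- the action of a member of the clone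
  have hact : ∀ n (f : Op Ω n), f ∈ C.ops n → ∃ p : Op Y n,
      ∀ y, ev (p y) = fun a => f (fun i => ev (y i) a) := by
    intro n f hf
    choose p hp using fun y : Fin (n + 1) → Y =>
      hevsurj _ (op_mem C Y hf (fun i => hevmem (y i)))
    exact ⟨p, hp⟩
  have huniq : ∀ n (f : Op Ω n) (p q : Op Y n),
      (∀ y, ev (p y) = fun a => f (fun i => ev (y i) a)) →
      (∀ y, ev (q y) = fun a => f (fun i => ev (y i) a)) → p = q := fun n f p q hp hq =>
    funext fun y => hev _ _ ((hp y).trans (hq y).symm)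
  let D : Clone Y :=
    { ops := fun n => {p | ∃ f ∈ C.ops n, ∀ y, ev (p y) = fun a => f (fun i => ev (y i) a)}
      proj_mem := fun n i => ⟨_, C.proj_mem n i, fun y => rfl⟩
      comp_mem := by
        rintro n m p q ⟨f, hf, hfp⟩ hq
        choose g hg hgq using hq
        refine ⟨_, C.comp_mem n m f g hf hg, fun y => ?_⟩
        rw [hfp]
        funext a
        congr 1
        funext i
        rw [hgq i y] }
  -- generators
  have hgen : ∀ n : ℕ, ∃ (l : Fin (n + 1) → Y) (γ : Fin (n + 1) → Y), Function.Injective l ∧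
      ∀ i, ev (γ i) = fun a => a (l i) := by
    intro n
    let l : Fin (n + 1) → Y := fun i => Infinite.natEmbedding Y i
    choose γ hγ using fun i => hevsurj _ (gen_mem C Y (l i))
    refine ⟨l, γ, ?_, hγ⟩
    exact (Infinite.natEmbedding Y).injective.comp Fin.val_injective
  choose l γ hl hγ using hgen
  have hdet : ∀ n (f f' : Op Ω n), (fun a : Y → Ω => f (fun i => ev (γ n i) a)) =
      (fun a => f' (fun i => ev (γ n i) a)) → f = f' := by
    intro n f f' h
    obtain ⟨ω0⟩ : Nonempty Ω := inferInstance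
    funext x
    have h1 : f (fun i => ev (γ n i) (Function.extend (l n) x fun _ => ω0)) =
        f' (fun i => ev (γ n i) (Function.extend (l n) x fun _ => ω0)) := congrFun h _
    have h2 : (fun i => ev (γ n i) (Function.extend (l n) x fun _ => ω0)) = x := by
      funext i
      rw [hγ n i]
      exact (hl n).extend_apply _ _ i
    rwa [h2] at h1
  have hD : D.Closed := by
    refine clone_closed fun n p h => ?_
    obtain ⟨p0, ⟨f, hf, hfp⟩, hp0⟩ := h {γ n}
    have h0 : p0 (γ n) = p (γ n) := hp0 _ (Finset.mem_singleton_self _)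
    refine ⟨f, hf, fun y => ?_⟩
    obtain ⟨p1, ⟨f1, hf1, hfp1⟩, hp1⟩ := h {γ n, y}
    have h1 : p1 (γ n) = p (γ n) := hp1 _ (by simp)
    have h2 : p1 y = p y := hp1 _ (by simp)
    have h3 : f1 = f := hdet n f1 f (by
      rw [← hfp1, ← hfp, h0, h1])
    rw [← h2, hfp1, h3]
  choose P hP using hact
  let ξ : CloneIso C D :=
    { map := fun n f => ⟨P n f.1 f.2, f.1, f.2, hP n f.1 f.2⟩
      bij := fun n => by
        constructor
        · rintro ⟨f, hf⟩ ⟨f', hf'⟩ h
          apply Subtype.ext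
          have h1 : P n f hf = P n f' hf' := congrArg Subtype.val h
          apply hdet n
          rw [← hP n f hf, ← hP n f' hf', h1]
        · rintro ⟨p, f, hf, hfp⟩
          exact ⟨⟨f, hf⟩, Subtype.ext (huniq n f _ _ (hP n f hf) hfp)⟩
      map_proj := fun n i => huniq n _ _ _ (hP n _ _) (fun y => rfl)
      map_comp := fun n m f g => by
        refine huniq m _ _ _ (hP m _ _) fun y => ?_
        show ev (P n f.1 f.2 _) = _
        rw [hP n f.1 f.2]
        funext a
        show f.1 (fun i => ev (P m (g i).1 (g i).2 y) a) =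
          f.1 (fun i => (g i).1 (fun j => ev (y j) a))
        refine congrArg f.1 (funext fun i => ?_)
        rw [hP m (g i).1 (g i).2] }
  have hcont : Continuous ξ.total := (hauto D hD ξ).continuous
  -- evaluation at a generator
  let φ : C.ops 0 → Y := fun f => P 0 f.1 f.2 (γ 0)
  have hφ : Continuous φ := by
    have h1 : Continuous (fun q : AllOps Y => q.2 (fun _ => γ 0 0)) :=
      continuous_sigma fun n =>
        (continuous_apply (fun _ : Fin (n + 1) => γ 0 0) :
          Continuous fun p : Op Y n => p fun _ => γ 0 0)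
    have h2 : Continuous (fun f : C.ops 0 => (ξ.total ⟨⟨0, f.1⟩, f.2⟩ : AllOps Y)) :=
      continuous_subtype_val.comp (hcont.comp
        ((continuous_sigmaMk.comp continuous_subtype_val).subtype_mk _))
    have h3 := h1.comp h2
    have h4 : (fun _ => γ 0 0) = γ 0 := funext fun i => by
      rw [show i = 0 from Subsingleton.elim (α := Fin 1) i 0]
    refine h3.congr fun f => ?_
    show P 0 f.1 f.2 (fun _ => γ 0 0) = P 0 f.1 f.2 (γ 0)
    rw [h4]
  let id0 : C.ops 0 := ⟨fun x => x 0, C.proj_mem 0 0⟩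
  have hopen : IsOpen (φ ⁻¹' {φ id0}) := (isOpen_discrete _).preimage hφ
  obtain ⟨o, ho, hoe⟩ := isOpen_induced_iff.1 hopen
  have hid : (id0 : Op Ω 0) ∈ o := by
    have : id0 ∈ Subtype.val ⁻¹' o := by
      rw [hoe]
      rfl
    exact this
  obtain ⟨I, u, hI, hsub⟩ := isOpen_pi_iff.1 ho _ hid
  choose sup hsup using hT.finite_support
  obtain ⟨σ, ω, hσ, hσω⟩ := exists_moving hT (I.biUnion fun x => sup (x 0))
  have hσmem : (fun x : Fin 1 → Ω => σ • x 0) ∈ o := by
    apply hsub
    intro i hi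
    have h1 : σ • i 0 = i 0 := hsup _ σ fun n hn => hσ n (Finset.mem_biUnion.2 ⟨i, hi, hn⟩)
    show σ • i 0 ∈ u i
    rw [h1]
    exact (hI i hi).2
  have h2 : (⟨_, hS σ⟩ : C.ops 0) ∈ Subtype.val ⁻¹' o := hσmem
  rw [hoe] at h2
  have h3 : P 0 _ (hS σ) (γ 0) = P 0 _ (C.proj_mem 0 0) (γ 0) := h2
  have h4 := hdet 0 (fun x => σ • x 0) (fun x => x 0) (by
    rw [← hP 0 _ (hS σ), ← hP 0 _ (C.proj_mem 0 0), h3])
  exact hσω (congrFun h4 fun _ => ω)

end Pool.Agent.KS6_94.AI
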