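import Mathlib
import Pool.Agent.KS6_94.AI.Neg
import Pool.Agent.KS6_94.AI.Interp

set_option autoImplicit false
set_option linter.unusedVariables false

open Filter Topology Cardinal

namespace Pool.Agent.KS6_94.AI

universe u v

/-- clones on finite sets have automatic homeomorphicity for all targets. -/
theorem autoHomeo_of_finite {Ω : Type v} [Finite Ω] (C : Clone Ω) (Y : Type u) :
    AutoHomeo C Y := by
  intro D hD ξ
  let _ : TopologicalSpace Ω := ⊥
  let _ : TopologicalSpace Y := ⊥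
  have _ : DiscreteTopology Ω := ⟨rfl⟩
  have _ : DiscreteTopology Y := ⟨rfl⟩
  refine total_isHomeomorph ξ fun n => ?_
  have h1 : Finite (C.ops n) := inferInstance
  have h2 : Finite (D.ops n) := Finite.of_surjective _ (ξ.bij n).2
  have h3 : DiscreteTopology (C.ops n) := inferInstance
  have h4 : DiscreteTopology (D.ops n) := inferInstance
  let e := Equiv.ofBijective (ξ.map n) (ξ.bij n)
  exact (Homeomorph.mk e continuous_of_discreteTopology
    continuous_of_discreteTopology).isHomeomorph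

/-- The general theorem. -/
theorem tame_iff {Ω : Type} [MulAction (Equiv.Perm ℕ) Ω] (hT : Tame Ω) {C : Clone Ω}
    (hC : C.Closed) (hS : ∀ σ : Equiv.Perm ℕ, (fun x : Fin 1 → Ω => σ • x 0) ∈ C.ops 0)
    (Y : Type u) : AutoHomeo C Y ↔ (Finite Ω ∨ #Y < 𝔠) := by
  constructor
  · intro h
    by_contra hcon
    rw [not_or, not_lt, not_finite_iff_infinite] at hcon
    have _ : Infinite Ω := hcon.1
    exact not_autoHomeo hT hS hcon.2 h
  · rintro (h | h)
    · exact autoHomeo_of_finite C Y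
    · exact automatic hT hC hS h

/-- Structures with an interpretation in `(ℕ, =)`. -/
theorem interp_iff {Ω : Type} {A : Set (Σ k : ℕ, Set (Fin k → Ω))} (I : Interpretation A) :
    (Pol A).Closed ∧ ∀ Y : Type u, AutoHomeo (Pol A) Y ↔ (Finite Ω ∨ #Y < 𝔠) := by
  have hC : (Pol A).Closed := clone_closed (pol_mem_of_approx A)
  obtain ⟨_, hT, hA⟩ := interp_action I
  exact ⟨hC, fun Y => tame_iff hT hC (fun σ R hR r hr => hA σ R hR (r 0) (hr 0)) Y⟩

/-- the standard action on `ℕ` is tame. -/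
lemma tame_nat : Tame ℕ where
  finite_orbits := ⟨{0}, Set.finite_singleton 0, fun ω => ⟨0, rfl, Equiv.swap 0 ω,
    Equiv.swap_apply_left _ _⟩⟩
  finite_support := fun ω => ⟨{ω}, fun σ hσ => hσ ω (Finset.mem_singleton_self ω)⟩

/-- Structures on `ℕ` that are definable in `(ℕ, =)`. -/
theorem definable_iff {A : Set (Σ k : ℕ, Set (Fin k → ℕ))}
    (hA : ∀ R ∈ A, EqDefinable ∅ R.2) :
    (Pol A).Closed ∧ ∀ Y : Type u, AutoHomeo (Pol A) Y ↔ #Y < 𝔠 := by
  have hC : (Pol A).Closed := clone_closed (pol_mem_of_approx A)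
  refine ⟨hC, fun Y => ?_⟩
  rw [tame_iff tame_nat hC (fun σ R hR r hr => definable_invariant (hA R hR) σ
    (fun b hb => absurd hb (by simp)) (r 0) (hr 0)) Y]
  refine or_iff_right ?_
  rw [not_finite_iff_infinite]
  infer_instance

/-- the permutations preserving a finite colouring contain a tame action. -/
theorem colour_action {k : ℕ} (c : ℕ → Fin k) : ∃ a : MulAction (Equiv.Perm ℕ) ℕ,
    @Tame ℕ a ∧ ∀ (σ : Equiv.Perm ℕ) (x : ℕ), c (a.toSMul.smul σ x) = c x := by
  classical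
  have hpq : ∀ i : Fin k, ∃ p q : ℕ → ℕ, (c ⁻¹' {i}).Infinite →
      (∀ n, c (p n) = i) ∧ (∀ n, q (p n) = n) ∧ ∀ x, c x = i → p (q x) = x := by
    intro i
    by_cases hi : (c ⁻¹' {i}).Infinite
    · have h1 : Infinite (c ⁻¹' {i}) := hi.to_subtype
      obtain ⟨e⟩ := nonempty_denumerable (c ⁻¹' {i})
      let θ : ℕ ≃ (c ⁻¹' {i}) := (Denumerable.eqv _).symm
      refine ⟨fun n => θ n, fun x => if hx : x ∈ c ⁻¹' {i} then θ.symm ⟨x, hx⟩ else 0,
        fun _ => ⟨fun n => (θ n).2, fun n => ?_, fun x hx => ?_⟩⟩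
      · show (if hx : (θ n : ℕ) ∈ c ⁻¹' {i} then θ.symm ⟨(θ n : ℕ), hx⟩ else 0) = n
        rw [dif_pos (θ n).2]
        exact θ.symm_apply_apply n
      · show (θ (if hx : x ∈ c ⁻¹' {i} then θ.symm ⟨x, hx⟩ else 0) : ℕ) = x
        rw [dif_pos (show x ∈ c ⁻¹' {i} from hx), Equiv.apply_symm_apply]
    · exact ⟨id, id, fun h => absurd h hi⟩
  choose p q hpq using hpq
  let act : Equiv.Perm ℕ → ℕ → ℕ := fun σ x =>
    if (c ⁻¹' {c x}).Infinite then p (c x) (σ (q (c x) x)) else x
  have h1 : ∀ σ x, (c ⁻¹' {c x}).Infinite → act σ x = p (c x) (σ (q (c x) x)) :=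
    fun σ x h => if_pos h
  have h2 : ∀ σ x, ¬ (c ⁻¹' {c x}).Infinite → act σ x = x := fun σ x h => if_neg h
  have hc : ∀ σ x, c (act σ x) = c x := by
    intro σ x
    by_cases h : (c ⁻¹' {c x}).Infinite
    · rw [h1 σ x h, (hpq _ h).1]
    · rw [h2 σ x h]
  let a : MulAction (Equiv.Perm ℕ) ℕ :=
    { smul := act
      one_smul := fun x => by
        show act 1 x = x
        by_cases h : (c ⁻¹' {c x}).Infinite
        · rw [h1 1 x h]
          exact (hpq _ h).2.2 x rfl
        · rw [h2 1 x h]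
      mul_smul := fun σ τ x => by
        show act (σ * τ) x = act σ (act τ x)
        by_cases h : (c ⁻¹' {c x}).Infinite
        · have hcx := hc τ x
          rw [h1 σ (act τ x) (by rw [hcx]; exact h), hcx, h1 τ x h, (hpq _ h).2.1,
            h1 (σ * τ) x h]
          rfl
        · rw [h2 τ x h, h2 σ x h, h2 _ x h] }
  refine ⟨a, @Tame.mk ℕ a ?_ ?_, hc⟩
  · refine ⟨{x | ¬ (c ⁻¹' {c x}).Infinite} ∪ Set.range (fun i => p i 0), ?_, ?_⟩
    · refine Set.Finite.union ?_ (Set.finite_range _)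
      have h3 : {x | ¬ (c ⁻¹' {c x}).Infinite} ⊆
          ⋃ i ∈ {i : Fin k | ¬ (c ⁻¹' {i}).Infinite}, c ⁻¹' {i} := by
        intro x hx
        simp only [Set.mem_iUnion]
        exact ⟨c x, hx, rfl⟩
      refine Set.Finite.subset (Set.Finite.biUnion (Set.toFinite _) fun i hi => ?_) h3
      exact Set.not_infinite.1 hi
    · intro x
      by_cases h : (c ⁻¹' {c x}).Infinite
      · refine ⟨p (c x) 0, Or.inr ⟨c x, rfl⟩, Equiv.swap 0 (q (c x) x), ?_⟩
        show act _ (p (c x) 0) = x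
        have h3 : c (p (c x) 0) = c x := (hpq _ h).1 0
        rw [h1 _ _ (by rw [h3]; exact h), h3, (hpq _ h).2.1, Equiv.swap_apply_left]
        exact (hpq _ h).2.2 x rfl
      · exact ⟨x, Or.inl h, 1, h2 1 x h⟩
  · intro x
    refine ⟨{q (c x) x}, fun σ hσ => ?_⟩
    show act σ x = x
    by_cases h : (c ⁻¹' {c x}).Infinite
    · rw [h1 σ x h, hσ _ (Finset.mem_singleton_self _)]
      exact (hpq _ h).2.2 x rfl
    · exact h2 σ x h

/-- Closed clones that contain all permutations preserving a finite colouring. -/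
theorem colour_iff {k : ℕ} (c : ℕ → Fin k) {C : Clone ℕ} (hC : C.Closed)
    (hS : ∀ π : Equiv.Perm ℕ, (∀ x, c (π x) = c x) → (fun x : Fin 1 → ℕ => π (x 0)) ∈ C.ops 0)
    (Y : Type u) : AutoHomeo C Y ↔ #Y < 𝔠 := by
  obtain ⟨a, hT, ha⟩ := colour_action c
  rw [@tame_iff ℕ a hT C hC (fun σ => hS (@MulAction.toPerm _ _ _ a σ) fun x => ha σ x) Y]
  refine or_iff_right ?_
  rw [not_finite_iff_infinite]
  infer_instance

end Pool.Agent.KS6_94.AI
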